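import Pool.Agent.H18.PM.Stm
import Pool.Agent.H70.PF.Fin2

/-! # MP_b4eed3_nt, project PM, row M5: almost sure windows -/

set_option autoImplicit false

namespace Pool.Agent.H18.PM

open Finset Classical MeasureTheory ProbabilityTheory

/-- the window of a choice -/
noncomputable def asWd {Ω : Type} (ξ : ℕ → Ω → Bool) (a N : ℕ) (ω : Ω) : Finset ℕ :=
  (Icc a N).filter fun n => ξ n ω = true

lemma as_wd_eq {Ω : Type} (ξ : ℕ → Ω → Bool) (a N : ℕ) (ω : Ω) :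
    asWd ξ a N ω = Pool.Agent.H70.PF.ProbA.rs ξ (Icc a N) ω := by
  unfold asWd Pool.Agent.H70.PF.ProbA.rs
  congr

/-- all indices `≥ a`: a sum with the property `Pw` has the property `Dv a` -/
lemma as_dv_of_pw {a : ℕ} {S : Finset ℕ} (hS : ∀ n ∈ S, a ≤ n) (h : Pw (fs S)) :
    Dv a (fs S) := by
  intro p hp hpa
  apply h p hp
  unfold fs
  apply Finset.dvd_sum
  intro n hn
  exact (Nat.Prime.dvd_factorial hp).mpr (hpa.trans (hS n hn))

lemma as_sq_dvd {p n : ℕ} (hp : p.Prime) (h : 2 * p ≤ n) : p ^ 2 ∣ n.factorial := by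
  have h1 : (p * 2) ≤ n := by omega
  have h2 : p ^ 2 ∣ (2 * p).factorial := by
    have h3 : (p.factorial ^ 2) ∣ (2 * p).factorial := by
      have := Nat.factorial_mul_factorial_dvd_factorial_add p p
      rw [← two_mul, ← sq] at this
      exact this
    have h4 : p ∣ p.factorial := Nat.dvd_factorial hp.pos le_rfl
    exact (pow_dvd_pow_of_dvd h4 2).trans h3
  exact h2.trans (Nat.factorial_dvd_factorial h)

/-- long windows only depend on the window `[a, 2 a - 1]` -/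
lemma as_dv_short {Ω : Type} (ξ : ℕ → Ω → Bool) {a N : ℕ} (ω : Ω) (hN : 2 * a ≤ N + 1)
    (ha : 1 ≤ a) (h : Dv a (fs (asWd ξ a N ω))) : Dv a (fs (asWd ξ a (2 * a - 1) ω)) := by
  intro p hp hpa
  have h1 := h p hp hpa
  have h2 : asWd ξ a N ω = asWd ξ a (2 * a - 1) ω ∪
      ((Icc (2 * a) N).filter fun n => ξ n ω = true) := by
    ext n
    simp only [asWd, mem_filter, mem_union, mem_Icc]
    constructor
    · rintro ⟨⟨h3, h4⟩, h5⟩
      rcases Nat.lt_or_ge n (2 * a) with h6 | h6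
      · exact Or.inl ⟨⟨h3, by omega⟩, h5⟩
      · exact Or.inr ⟨⟨h6, h4⟩, h5⟩
    · rintro (⟨⟨h3, h4⟩, h5⟩ | ⟨⟨h3, h4⟩, h5⟩)
      · exact ⟨⟨h3, by omega⟩, h5⟩
      · exact ⟨⟨by omega, h4⟩, h5⟩
  have h3 : Disjoint (asWd ξ a (2 * a - 1) ω)
      ((Icc (2 * a) N).filter fun n => ξ n ω = true) := by
    rw [Finset.disjoint_left]
    intro n h4 h5
    simp only [asWd, mem_filter, mem_Icc] at h4 h5
    omega
  unfold fs at h1 ⊢
  rw [h2, Finset.sum_union h3] at h1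
  refine (Nat.dvd_add_left ?_).mp h1
  apply Finset.dvd_sum
  intro n hn
  rw [mem_filter, mem_Icc] at hn
  exact as_sq_dvd hp (by omega)

/-- a fixed left end -/
lemma as_fixed {Ω : Type} [MeasurableSpace Ω] (P : Measure Ω) [IsProbabilityMeasure P]
    (ξ : ℕ → Ω → Bool) (hm : ∀ n, Measurable (ξ n)) (hi : iIndepFun ξ P)
    (hh : ∀ n, P (ξ n ⁻¹' {true}) = 1 / 2) (a : ℕ) (ha : 1 ≤ a) :
    ∀ᵐ ω ∂P, {N : ℕ | Pw (fs (asWd ξ a N ω))}.Finite := by
  have h1 := Pool.Agent.H70.PF.part_ae {n : ℕ | a ≤ n} ∅ (by simp) (by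
    refine ⟨a, fun x hx => ?_⟩
    have hx1 : 1 ≤ x := ha.trans hx
    have h2 : {n : ℕ | a ≤ n} ∩ Set.Ioc x (4 * x) = ((Finset.Ioc x (4 * x) : Finset ℕ) : Set ℕ) := by
      ext n
      simp only [Set.mem_inter_iff, Set.mem_Ioc, coe_Ioc, Set.mem_ofPred_eq]
      constructor
      · exact fun h => h.2
      · exact fun h => ⟨by omega, h⟩
    rw [h2, Set.ncard_coe_finset, Nat.card_Ioc]
    have h3 : (x : ℝ) ^ (15 / 16 : ℝ) ≤ (x : ℝ) ^ (1 : ℝ) :=
      Real.rpow_le_rpow_of_exponent_le (by exact_mod_cast hx1) (by norm_num)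
    rw [Real.rpow_one] at h3
    refine h3.trans ?_
    exact_mod_cast (by omega : x ≤ 4 * x - x)) P ξ hm hi hh
  filter_upwards [h1] with ω hω
  refine hω.subset ?_
  intro N hN
  have h2 : (∑ᶠ n ∈ {n : ℕ | 1 ≤ n ∧ n ≤ N ∧ (n ∈ (∅ : Set ℕ) ∨ (n ∈ {n : ℕ | a ≤ n} ∧ ξ n ω = true))},
      (n.factorial : ℤ)) = ((fs (asWd ξ a N ω) : ℕ) : ℤ) := by
    have h3 : {n : ℕ | 1 ≤ n ∧ n ≤ N ∧ (n ∈ (∅ : Set ℕ) ∨ (n ∈ {n : ℕ | a ≤ n} ∧ ξ n ω = true))}
        = ((asWd ξ a N ω : Finset ℕ) : Set ℕ) := by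
      ext n
      rw [asWd, mem_coe, mem_filter, mem_Icc]
      show 1 ≤ n ∧ n ≤ N ∧ (n ∈ (∅ : Set ℕ) ∨ (a ≤ n ∧ ξ n ω = true)) ↔ _
      constructor
      · rintro ⟨h4, h5, h6 | ⟨h6, h7⟩⟩
        · exact absurd h6 (Set.notMem_empty n)
        · exact ⟨⟨h6, h5⟩, h7⟩
      · rintro ⟨⟨h4, h5⟩, h6⟩
        exact ⟨by omega, h5, Or.inr ⟨h4, h6⟩⟩
    rw [h3, finsum_mem_coe_finset]
    unfold fs
    push_cast
    rfl
  have h5 : Pool.Agent.H70.PF.PowerfulAbove (Real.exp (Real.sqrt (Real.log N)))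
      ((fs (asWd ξ a N ω) : ℕ) : ℤ) := by
    intro p hp _ hpd
    have h3 : p ∣ fs (asWd ξ a N ω) := by exact_mod_cast hpd
    have h4 : Pw (fs (asWd ξ a N ω)) := hN
    exact_mod_cast h4 p hp h3
  rw [← h2] at h5
  exact h5

/-- the numerical decay -/
lemma as_decay {c : ℝ} (hc : 0 < c) : ∃ K : ℝ, 0 ≤ K ∧ ∀ a : ℕ, 2 ≤ a →
    ((a : ℝ) + 1) * (2 : ℝ) ^ (-(c * a / Real.log a)) ≤ K / (a : ℝ) ^ 2 := by
  set d : ℝ := c * Real.log 2 / 2 with hd
  have hlog2 : 0 < Real.log 2 := Real.log_pos (by norm_num)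
  have hd0 : 0 < d := by rw [hd]; positivity
  refine ⟨2 * 720 / d ^ 6, by positivity, fun a ha => ?_⟩
  have ha2 : (2 : ℝ) ≤ a := by exact_mod_cast ha
  have ha0 : (0 : ℝ) < a := by linarith
  have hla : 0 < Real.log a := Real.log_pos (by linarith)
  set s : ℝ := Real.sqrt a with hs
  have hs0 : 0 < s := Real.sqrt_pos.mpr ha0
  have hss : s ^ 2 = a := Real.sq_sqrt ha0.le
  have hls : Real.log a ≤ 2 * s := by
    have h1 : Real.log a = 2 * Real.log s := by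
      rw [← hss, Real.log_pow]
      push_cast
      ring
    rw [h1]
    have h2 := Real.log_le_sub_one_of_pos hs0
    linarith
  have h1 : d * s ≤ c * a / Real.log a * Real.log 2 := by
    have h0 : c * a / Real.log a * Real.log 2 = (c * a * Real.log 2) / Real.log a := by ring
    rw [h0, le_div_iff₀ hla]
    calc d * s * Real.log a ≤ d * s * (2 * s) := by gcongr
      _ = c * a * Real.log 2 := by
          rw [hd, ← hss]
          ring
  have h2 : (2 : ℝ) ^ (-(c * a / Real.log a)) = Real.exp (-(c * a / Real.log a * Real.log 2)) := by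
    rw [Real.rpow_def_of_pos (by norm_num : (0 : ℝ) < 2)]
    congr 1
    ring
  have h3 : Real.exp (-(c * a / Real.log a * Real.log 2)) ≤ Real.exp (-(d * s)) :=
    Real.exp_le_exp.mpr (by linarith)
  have h4 : (d * s) ^ 6 / 720 ≤ Real.exp (d * s) := by
    have h5 := Real.pow_div_factorial_le_exp (x := d * s) (by positivity) 6
    have h6 : ((Nat.factorial 6 : ℕ) : ℝ) = 720 := by norm_num [Nat.factorial]
    rwa [h6] at h5
  have h5 : Real.exp (-(d * s)) ≤ 720 / (d ^ 6 * a ^ 3) := by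
    rw [Real.exp_neg, inv_le_comm₀ (Real.exp_pos _) (by positivity), inv_div]
    refine le_trans (le_of_eq ?_) h4
    rw [mul_pow, ← hss]
    ring
  rw [h2]
  calc ((a : ℝ) + 1) * Real.exp (-(c * a / Real.log a * Real.log 2))
      ≤ (2 * a) * (720 / (d ^ 6 * a ^ 3)) := by
        apply mul_le_mul (by linarith) (h3.trans h5) (Real.exp_pos _).le (by positivity)
    _ = 2 * 720 / d ^ 6 / (a : ℝ) ^ 2 := by
        field_simp

/-- transfer of a count to the measure -/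
lemma as_meas {Ω : Type} [MeasurableSpace Ω] (P : Measure Ω) [IsProbabilityMeasure P]
    (ξ : ℕ → Ω → Bool) (hm : ∀ n, Measurable (ξ n)) (hi : iIndepFun ξ P)
    (hh : ∀ n, P (ξ n ⁻¹' {true}) = 1 / 2) (a N : ℕ) (Q : Finset ℕ → Prop) (ε : ℝ)
    (hQ : (Pool.Agent.H70.PF.num (Icc a N) Q : ℝ) ≤ 2 ^ (N + 1 - a) * ε) :
    P {ω | Q (asWd ξ a N ω)} ≤ ENNReal.ofReal ε := by
  have h1 := Pool.Agent.H70.PF.ProbA.measure_num P ξ hm hi hh (Icc a N) Q
  have h2 : {ω | Q (asWd ξ a N ω)} = {ω | Q (Pool.Agent.H70.PF.ProbA.rs ξ (Icc a N) ω)} := by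
    ext ω
    rw [Set.mem_ofPred_eq, Set.mem_ofPred_eq, as_wd_eq]
  rw [h2]
  refine h1.trans ?_
  rw [Nat.card_Icc]
  have h3 : (Pool.Agent.H70.PF.num (Icc a N) Q : ENNReal) *
      (1 / 2 : ENNReal) ^ (N + 1 - a) =
      ENNReal.ofReal ((Pool.Agent.H70.PF.num (Icc a N) Q : ℝ) *
        (1 / 2) ^ (N + 1 - a)) := by
    rw [ENNReal.ofReal_mul (by positivity), ENNReal.ofReal_natCast,
      ENNReal.ofReal_pow (by positivity), ENNReal.ofReal_div_of_pos (by norm_num)]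
    simp
  rw [h3]
  apply ENNReal.ofReal_le_ofReal
  calc (Pool.Agent.H70.PF.num (Icc a N) Q : ℝ) * (1 / 2) ^ (N + 1 - a)
      ≤ (2 ^ (N + 1 - a) * ε) * (1 / 2) ^ (N + 1 - a) :=
        mul_le_mul_of_nonneg_right hQ (by positivity)
    _ = ε * (2 ^ (N + 1 - a) * (1 / 2) ^ (N + 1 - a)) := by ring
    _ = ε := by rw [← mul_pow]; norm_num

/-- the bad event for the left end `a` -/
def asE {Ω : Type} (ξ : ℕ → Ω → Bool) (a : ℕ) : Set Ω :=
  {ω | ∃ N, a ≤ N ∧ (asWd ξ a N ω).Nonempty ∧ Pw (fs (asWd ξ a N ω))}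

lemma as_event {Ω : Type} [MeasurableSpace Ω] (P : Measure Ω) [IsProbabilityMeasure P]
    (ξ : ℕ → Ω → Bool) (hm : ∀ n, Measurable (ξ n)) (hi : iIndepFun ξ P)
    (hh : ∀ n, P (ξ n ⁻¹' {true}) = 1 / 2) (a : ℕ) (ha : 1 ≤ a) (ε : ℝ) (hε : 0 ≤ ε)
    (h : ∀ N : ℕ, a ≤ N →
      (Pool.Agent.H70.PF.num (Icc a N) (fun S => S.Nonempty ∧ Dv a (fs S)) : ℝ) ≤
          2 ^ (N + 1 - a) * ε ∧
      (2 * a ≤ N + 1 → (Pool.Agent.H70.PF.num (Icc a N) (fun S => Dv a (fs S)) : ℝ) ≤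
          2 ^ (N + 1 - a) * ε)) :
    P (asE ξ a) ≤ ENNReal.ofReal (((a : ℝ) + 1) * ε) := by
  have hsub : asE ξ a ⊆ (⋃ N ∈ Ico a (2 * a), {ω | (fun S : Finset ℕ => S.Nonempty ∧ Dv a (fs S))
      (asWd ξ a N ω)}) ∪ {ω | (fun S : Finset ℕ => Dv a (fs S)) (asWd ξ a (2 * a - 1) ω)} := by
    rintro ω ⟨N, hN, hne, hpw⟩
    have h1 : Dv a (fs (asWd ξ a N ω)) := by
      apply as_dv_of_pw _ hpw
      intro n hn
      rw [asWd, mem_filter, mem_Icc] at hn
      exact hn.1.1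
    rcases Nat.lt_or_ge N (2 * a) with h2 | h2
    · left
      simp only [Set.mem_iUnion]
      exact ⟨N, mem_Ico.mpr ⟨hN, h2⟩, hne, h1⟩
    · right
      exact as_dv_short ξ ω (by omega) ha h1
  refine (measure_mono hsub).trans ((measure_union_le _ _).trans ?_)
  have h1 : P (⋃ N ∈ Ico a (2 * a), {ω | (fun S : Finset ℕ => S.Nonempty ∧ Dv a (fs S))
      (asWd ξ a N ω)}) ≤ a * ENNReal.ofReal ε := by
    refine (measure_biUnion_finset_le _ _).trans ?_
    refine (Finset.sum_le_card_nsmul _ _ (ENNReal.ofReal ε) ?_).trans ?_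
    · intro N hN
      rw [mem_Ico] at hN
      exact as_meas P ξ hm hi hh a N (fun S => S.Nonempty ∧ Dv a (fs S)) ε (h N hN.1).1
    · rw [Nat.card_Ico, nsmul_eq_mul]
      have : 2 * a - a = a := by omega
      rw [this]
  have h2 : P {ω | (fun S : Finset ℕ => Dv a (fs S)) (asWd ξ a (2 * a - 1) ω)} ≤
      ENNReal.ofReal ε :=
    as_meas P ξ hm hi hh a (2 * a - 1) (fun S => Dv a (fs S)) ε
      ((h (2 * a - 1) (by omega)).2 (by omega))
  calc _ ≤ a * ENNReal.ofReal ε + ENNReal.ofReal ε := add_le_add h1 h2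
    _ = ENNReal.ofReal (((a : ℝ) + 1) * ε) := by
        rw [add_mul, one_mul, ENNReal.ofReal_add (by positivity) hε,
          ENNReal.ofReal_mul (by positivity), ENNReal.ofReal_natCast]

theorem asW (h : SCnt) : SAs := by
  intro Ω _ P _ ξ hm hi hh
  obtain ⟨c, hc, a₀, h⟩ := h
  obtain ⟨K, hK, hdec⟩ := as_decay hc
  -- Borel-Cantelli
  have hBC : ∀ᵐ ω ∂P, ∀ᶠ i in Filter.atTop, ω ∉ asE ξ (i + (a₀ + 2)) := by
    apply ae_eventually_notMem
    have h1 : ∀ i : ℕ, P (asE ξ (i + (a₀ + 2))) ≤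
        ENNReal.ofReal (K / ((i + (a₀ + 2) : ℕ) : ℝ) ^ 2) := by
      intro i
      refine (as_event P ξ hm hi hh (i + (a₀ + 2)) (by omega)
        ((2 : ℝ) ^ (-(c * ((i + (a₀ + 2) : ℕ) : ℝ) / Real.log ((i + (a₀ + 2) : ℕ) : ℝ))))
        (by positivity) ?_).trans ?_
      · intro N hN
        have h5 := h (i + (a₀ + 2)) (by omega) N hN
        refine ⟨?_, fun h6 => ?_⟩
        · rw [Pool.Agent.H70.PF.num_eq]
          exact h5.1
        · rw [Pool.Agent.H70.PF.num_eq]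
          exact h5.2 h6
      exact ENNReal.ofReal_le_ofReal (hdec (i + (a₀ + 2)) (by omega))
    have h2 : Summable fun i : ℕ => K / ((i + (a₀ + 2) : ℕ) : ℝ) ^ 2 := by
      have h3 : Summable fun n : ℕ => K / ((n : ℕ) : ℝ) ^ 2 := by
        have h4 := (Real.summable_one_div_nat_pow (p := 2)).mpr (by norm_num)
        have h5 := h4.mul_left K
        refine h5.congr fun n => ?_
        ring
      exact (summable_nat_add_iff (a₀ + 2)).mpr h3
    refine ne_top_of_le_ne_top ?_ (ENNReal.tsum_le_tsum h1)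
    rw [← ENNReal.ofReal_tsum_of_nonneg (fun i => by positivity) h2]
    exact ENNReal.ofReal_ne_top
  have hfix : ∀ᵐ ω ∂P, ∀ a : ℕ, 1 ≤ a → {N : ℕ | Pw (fs (asWd ξ a N ω))}.Finite := by
    rw [ae_all_iff]
    intro a
    by_cases ha : 1 ≤ a
    · filter_upwards [as_fixed P ξ hm hi hh a ha] with ω hω _
      exact hω
    · exact Filter.Eventually.of_forall fun ω h => absurd h ha
  filter_upwards [hBC, hfix] with ω h1 h2
  rw [Filter.eventually_atTop] at h1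
  obtain ⟨i₀, hi₀⟩ := h1
  have hfin : (⋃ a ∈ Finset.Icc 1 (i₀ + (a₀ + 2)),
      (fun N : ℕ => (a, N)) '' {N : ℕ | Pw (fs (asWd ξ a N ω))}).Finite := by
    apply Set.Finite.biUnion (Finset.finite_toSet _)
    intro a ha
    have ha' : a ∈ Finset.Icc 1 (i₀ + (a₀ + 2)) := ha
    rw [mem_Icc] at ha'
    exact (h2 a ha'.1).image _
  refine hfin.subset ?_
  rintro ⟨a, N⟩ ⟨ha, hne, hpw⟩
  have ha1 : 1 ≤ a := ha
  have hne' : (asWd ξ a N ω).Nonempty := by
    have := hne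
    unfold asWd
    convert this
  have hpw' : Pw (fs (asWd ξ a N ω)) := by
    have := hpw
    unfold asWd
    convert this
  have haN : a ≤ N := by
    obtain ⟨n, hn⟩ := hne'
    rw [asWd, mem_filter, mem_Icc] at hn
    omega
  simp only [Set.mem_iUnion]
  refine ⟨a, ?_, N, hpw', rfl⟩
  rw [mem_Icc]
  refine ⟨ha1, ?_⟩
  by_contra hcon
  push Not at hcon
  have h3 := hi₀ (a - (a₀ + 2)) (by omega)
  have h4 : a - (a₀ + 2) + (a₀ + 2) = a := by omega
  rw [h4] at h3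
  exact h3 ⟨N, haN, hne', hpw'⟩

end Pool.Agent.H18.PM
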