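import Pool.Agent.H18.PM.Win

/-!
# MP_b4eed3_nt, project PM: assembly
-/

set_option autoImplicit false

namespace Pool.Agent.H18.PM

open Finset Classical

/-- the traces on `[a, 2 a)` of the powerful sums with all indices `≥ a` -/
theorem fin_trace {a : ℕ} : ((Ico a (2 * a)).powerset.filter fun U => ∃ S : Finset ℕ,
    (∀ n ∈ S, a ≤ n) ∧ (S.filter fun n => n < 2 * a) = U ∧ Nx a (fs S)).card ≤
    ((Ico a (2 * a)).powerset.filter fun U => Dw a (fs U)).card := by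
  refine card_le_card fun U hU => ?_
  obtain ⟨h1, S, h2, h3, h4⟩ := mem_filter.1 hU
  refine mem_filter.2 ⟨h1, ?_⟩
  rw [← h3]
  exact pmw_cutW (h4.dw h2)

/-- the subsets of `[a, N]` -/
theorem fin_sub (a N : ℕ) :
    ((Icc a N).powerset.filter fun S => Nx a (fs S)).card ≤
      ((Ico a (2 * a)).powerset.filter fun U => Dw a (fs U)).card * 2 ^ (N + 1 - 2 * a) := by
  have h1 : ((Icc a N).powerset.filter fun S => Nx a (fs S)).card ≤
      (((Ico a (2 * a)).powerset.filter fun U => Dw a (fs U)) ×ˢ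
        (Icc (2 * a) N).powerset).card := by
    refine card_le_card_of_injOn (fun S : Finset ℕ => (S.filter (fun n => n < 2 * a),
      S.filter fun n => ¬ n < 2 * a)) ?_ ?_
    · intro S hS
      obtain ⟨h2, h3⟩ := mem_filter.1 (mem_coe.1 hS)
      have h4 : ∀ n ∈ S, a ≤ n ∧ n ≤ N := fun n hn => mem_Icc.1 (mem_powerset.1 h2 hn)
      refine mem_coe.2 (mem_product.2 ⟨mem_filter.2 ⟨mem_powerset.2 fun n hn => ?_, ?_⟩,
        mem_powerset.2 fun n hn => ?_⟩)
      · obtain ⟨h5, h6⟩ := mem_filter.1 hn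
        exact mem_Ico.2 ⟨(h4 n h5).1, h6⟩
      · exact pmw_cutW (h3.dw fun n hn => (h4 n hn).1)
      · obtain ⟨h5, h6⟩ := mem_filter.1 hn
        exact mem_Icc.2 ⟨by omega, (h4 n h5).2⟩
    · intro S _ S' _ heq
      have h5 : S.filter (fun n => n < 2 * a) = S'.filter fun n => n < 2 * a :=
        congrArg Prod.fst heq
      have h6 : S.filter (fun n => ¬ n < 2 * a) = S'.filter fun n => ¬ n < 2 * a :=
        congrArg Prod.snd heq
      rw [← filter_union_filter_not_eq (fun n => n < 2 * a) S,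
        ← filter_union_filter_not_eq (fun n => n < 2 * a) S', h5, h6]
  rwa [card_product, card_powerset, Nat.card_Icc] at h1

/-- the parts on sets with large smallest index -/
theorem fin_main (hu : SUniW) (hr : SRareW) : ∃ c : ℝ, 0 < c ∧ ∃ a₀ : ℕ, ∀ a : ℕ, a₀ ≤ a →
    ((((Ico a (2 * a)).powerset.filter fun U => ∃ S : Finset ℕ, (∀ n ∈ S, a ≤ n) ∧
      (S.filter fun n => n < 2 * a) = U ∧ Nx a (fs S)).card : ℝ) ≤ (2 : ℝ) ^ ((1 - c) * a)) ∧
    (∀ N : ℕ, 2 * a ≤ N + 1 → (((Icc a N).powerset.filter fun S => Nx a (fs S)).card : ℝ) ≤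
      (2 : ℝ) ^ ((N : ℝ) + 1 - a - c * a)) ∧
    ∀ S S' : Finset ℕ, (∀ n ∈ S, a ≤ n) → (∀ n ∈ S', a ≤ n) → Nx a (fs S) → Nx a (fs S') →
      S ≠ S' → ∃ n : ℕ, (n ∈ S ∧ n ∉ S' ∨ n ∈ S' ∧ n ∉ S) ∧
        (a : ℝ) + c * a / Real.log a ≤ n := by
  obtain ⟨c₁, hc₁, a₁, h1⟩ := hu
  obtain ⟨c₂, hc₂, a₂, h2⟩ := hr
  refine ⟨min c₁ c₂, lt_min hc₁ hc₂, max (max a₁ a₂) 1, fun a ha => ?_⟩
  have ha1 : a₁ ≤ a := (le_max_left _ _).trans ((le_max_left _ _).trans ha)
  have ha2 : a₂ ≤ a := (le_max_right _ _).trans ((le_max_left _ _).trans ha)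
  have ha3 : 1 ≤ a := (le_max_right _ _).trans ha
  have ha0 : (0 : ℝ) ≤ a := Nat.cast_nonneg a
  have hcard : (((Ico a (2 * a)).powerset.filter fun U => Dw a (fs U)).card : ℝ) ≤
      (2 : ℝ) ^ ((1 - min c₁ c₂) * a) := by
    refine (h2 a ha2).trans (Real.rpow_le_rpow_of_exponent_le (by norm_num) ?_)
    refine mul_le_mul_of_nonneg_right ?_ ha0
    linarith [min_le_right c₁ c₂]
  refine ⟨?_, fun N hN => ?_, fun S S' hS hS' hp hp' hne => ?_⟩
  · refine le_trans ?_ hcard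
    exact_mod_cast fin_trace
  · have h3 : (((Icc a N).powerset.filter fun S => Nx a (fs S)).card : ℝ) ≤
        (((Ico a (2 * a)).powerset.filter fun U => Dw a (fs U)).card : ℝ) *
          2 ^ (N + 1 - 2 * a) := by exact_mod_cast fin_sub a N
    refine h3.trans ?_
    have h4 : ((N : ℝ) + 1 - a - min c₁ c₂ * a) =
        (1 - min c₁ c₂) * a + ((N + 1 - 2 * a : ℕ) : ℝ) := by
      rw [Nat.cast_sub hN]
      push_cast
      ring
    rw [h4, Real.rpow_add (by norm_num), Real.rpow_natCast]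
    exact mul_le_mul_of_nonneg_right hcard (by positivity)
  · obtain ⟨n, hn, hb⟩ := h1 a ha1 S S' hS hS' (hp.dw hS) (hp'.dw hS') hne
    refine ⟨n, hn, le_trans ?_ hb⟩
    have hlog : 0 ≤ Real.log a := Real.log_nonneg (by exact_mod_cast ha3)
    have h3 : min c₁ c₂ * a / Real.log a ≤ c₁ * a / Real.log a :=
      div_le_div_of_nonneg_right (mul_le_mul_of_nonneg_right (min_le_left _ _) ha0) hlog
    linarith

end Pool.Agent.H18.PM
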