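import Pool.Agent.H18.PM.Stm
import Pool.Agent.H46.PM.Gj
import Pool.Agent.H99.ADS.Sieve

/-!
# Primes close to the next prime: Selberg's sieve
-/

set_option autoImplicit false

namespace Pool.Agent.H18.PM

open Finset Pool.Agent.H99.ADS Pool.Agent.H46.PM

namespace PairAux

/-- the sieving primes -/
def pr (R : ℕ) : Finset ℕ := (Icc 1 R).filter Nat.Prime

/-- the bad residues -/
def bd (j q m : ℕ) : Prop := q ∣ m ∨ q ∣ m + j

/-- their number -/
def wt (j q : ℕ) : ℕ := if q ∣ j then 1 else 2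

theorem mem_pr {R q : ℕ} : q ∈ pr R ↔ q.Prime ∧ q ≤ R := by
  unfold pr
  rw [mem_filter, mem_Icc]
  exact ⟨fun h => ⟨h.2, h.1.2⟩, fun h => ⟨⟨h.1.one_lt.le, h.2⟩, h.1⟩⟩

theorem classes (R j : ℕ) : Classes (pr R) (bd j) (wt j) where
  prime := fun q hq => (mem_pr.1 hq).1
  per := by
    intro q _ m
    unfold bd
    have h1 : q ∣ m ↔ q ∣ m % q := (Nat.dvd_mod_iff (dvd_refl q)).symm
    have h2 : q ∣ m + j ↔ q ∣ m % q + j := by
      have h3 := Nat.mod_add_div m q
      constructor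
      · intro h
        have h4 : m + j = (m % q + j) + q * (m / q) := by omega
        rw [h4] at h
        exact (Nat.dvd_add_iff_left (Dvd.intro _ rfl)).mpr h
      · intro h
        have h4 : m + j = (m % q + j) + q * (m / q) := by omega
        rw [h4]
        exact dvd_add h (Dvd.intro _ rfl)
    rw [← h1, ← h2]
  card := by
    intro q hq
    have hqp := (mem_pr.1 hq).1
    have hq0 := hqp.pos
    unfold wt
    split_ifs with h
    · rw [Set.ncard_eq_one]
      refine ⟨0, ?_⟩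
      ext r
      simp only [Set.mem_ofPred_eq, Set.mem_singleton_iff, bd]
      constructor
      · rintro ⟨h1, h2 | h2⟩
        · exact Nat.eq_zero_of_dvd_of_lt h2 h1
        · exact Nat.eq_zero_of_dvd_of_lt ((Nat.dvd_add_iff_left h).mpr h2) h1
      · rintro rfl
        exact ⟨hq0, Or.inl (dvd_zero q)⟩
    · have hj : 0 < j % q := Nat.pos_of_ne_zero fun h0 => h (Nat.dvd_of_mod_eq_zero h0)
      have hj2 : j % q < q := Nat.mod_lt _ hq0
      have hset : {r | r < q ∧ bd j q r} = {0, q - j % q} := by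
        ext r
        simp only [Set.mem_ofPred_eq, Set.mem_insert_iff, Set.mem_singleton_iff, bd]
        have h3 := Nat.mod_add_div j q
        constructor
        · rintro ⟨h1, h2 | h2⟩
          · left; exact Nat.eq_zero_of_dvd_of_lt h2 h1
          · right
            have h4 : q ∣ r + j % q := by
              have h5 : r + j = (r + j % q) + q * (j / q) := by omega
              rw [h5] at h2
              exact (Nat.dvd_add_iff_left (Dvd.intro _ rfl)).mpr h2
            obtain ⟨k, hk⟩ := h4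
            have hk1 : k = 1 := by
              rcases Nat.lt_or_ge k 1 with h6 | h6
              · have : k = 0 := by omega
                subst this
                omega
              · rcases Nat.lt_or_ge 1 k with h7 | h7
                · have : q * 2 ≤ q * k := Nat.mul_le_mul_left q h7
                  omega
                · omega
            subst hk1
            omega
        · rintro (rfl | rfl)
          · exact ⟨hq0, Or.inl (dvd_zero q)⟩
          · refine ⟨by omega, Or.inr ?_⟩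
            have h5 : q - j % q + j = q * (j / q + 1) := by
              rw [mul_add, mul_one]
              omega
            rw [h5]
            exact Dvd.intro _ rfl
      rw [hset, Set.ncard_pair]
      omega

theorem lower (j Y : ℕ) (hj : j ≠ 0) :
    Real.log (Y + 1) ^ 2 ≤
      Gj j * Ds (fun q => if q ∈ pr (Y * Y) then (wt j q : ℝ) else 0) (Y * Y) := by
  have hl : 0 ≤ Real.log ((Y : ℝ) + 1) := Real.log_nonneg (by
    have : (0 : ℝ) ≤ Y := Nat.cast_nonneg Y
    linarith)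
  have h1 := log_le_Ds_one Y
  have h2 := log_le_mul (fun q => q ∣ j) Y
  have h3 := ds_ind_dvd hj Y
  have h4 : 0 ≤ Ds (ind fun q => ¬ q ∣ j) Y := Ds_nonneg (fun q _ => ind_nonneg _ q) Y
  have h5 : Real.log ((Y : ℝ) + 1) ≤ Gj j * Ds (ind fun q => ¬ q ∣ j) Y :=
    h2.trans (mul_le_mul_of_nonneg_right h3 h4)
  have h6 := Ds_mul_le (f := fun _ => (1 : ℝ)) (g := ind fun q => ¬ q ∣ j)
    (fun _ _ => zero_le_one) (fun q _ => ind_nonneg _ q) Y Y
  have h7 : Ds (fun q => (1 : ℝ) + ind (fun q => ¬ q ∣ j) q) (Y * Y) =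
      Ds (fun q => if q ∈ pr (Y * Y) then (wt j q : ℝ) else 0) (Y * Y) := by
    apply Ds_congr
    intro q hq hqY
    rw [if_pos (mem_pr.2 ⟨hq, hqY⟩)]
    unfold wt
    by_cases h : q ∣ j
    · rw [if_pos h, ind_of_not (T := fun q => ¬ q ∣ j) (not_not.mpr h)]
      norm_num
    · rw [if_neg h, ind_of (T := fun q => ¬ q ∣ j) h]
      norm_num
  rw [h7] at h6
  have hG : 0 ≤ Gj j := by
    unfold Gj
    refine Finset.prod_nonneg fun q hq => ?_
    have hq1 : (1 : ℝ) ≤ q := by
      exact_mod_cast (Nat.prime_of_mem_primeFactors hq).one_lt.le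
    have : 1 / (q : ℝ) ≤ 1 := by
      rw [div_le_one (by linarith)]
      exact hq1
    exact inv_nonneg.2 (by linarith)
  calc Real.log ((Y : ℝ) + 1) ^ 2 = Real.log ((Y : ℝ) + 1) * Real.log ((Y : ℝ) + 1) := by ring
    _ ≤ Ds (fun _ => 1) Y * (Gj j * Ds (ind fun q => ¬ q ∣ j) Y) :=
        mul_le_mul h1 h5 hl (hl.trans h1)
    _ = Gj j * (Ds (fun _ => 1) Y * Ds (ind fun q => ¬ q ∣ j) Y) := by ring
    _ ≤ _ := mul_le_mul_of_nonneg_left h6 hG

open Classical in
/-- The pairs `p, p + j` with `j` even. -/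
theorem even_bound (a j Y : ℕ) (hj : j ≠ 0) (hj2 : 2 ∣ j) (hY : 1 ≤ Y) :
    (((range (a + 1)).filter fun p => p.Prime ∧ (p + j).Prime).card : ℝ) ≤
      Gj j * (a / Real.log (Y + 1) ^ 2) + ((Y : ℝ) ^ 12 + (Y : ℝ) ^ 2) := by
  have h1 := sieve_bound (classes (Y * Y) j)
    (fun q _ => by unfold wt; split_ifs <;> norm_num)
    (fun q hq => by
      have hqp := (mem_pr.1 hq).1
      unfold wt
      split_ifs with h
      · exact hqp.one_lt
      · have h2 : q ≠ 2 := by rintro rfl; exact h hj2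
        have := hqp.two_le
        omega) a (R := Y * Y) (Nat.mul_pos hY hY)
  have h2 : ((range (a + 1)).filter fun p => p.Prime ∧ (p + j).Prime) ⊆
      ((Icc 1 a).filter (fun m => ∀ q ∈ pr (Y * Y), ¬ bd j q m)) ∪ Icc 1 (Y * Y) := by
    intro p hp
    rw [mem_filter, mem_range] at hp
    rw [mem_union, mem_filter, mem_Icc, mem_Icc]
    have hp1 := hp.2.1.one_lt
    by_cases h : p ≤ Y * Y
    · right
      omega
    · left
      refine ⟨by omega, fun q hq hbad => ?_⟩
      obtain ⟨hq1, hq2⟩ := mem_pr.1 hq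
      rcases hbad with h3 | h3
      · rw [Nat.prime_dvd_prime_iff_eq hq1 hp.2.1] at h3
        omega
      · rw [Nat.prime_dvd_prime_iff_eq hq1 hp.2.2] at h3
        omega
  have h3 : (((range (a + 1)).filter fun p => p.Prime ∧ (p + j).Prime).card : ℝ) ≤
      (((Icc 1 a).filter (fun m => ∀ q ∈ pr (Y * Y), ¬ bd j q m)).card : ℝ) +
        ((Icc 1 (Y * Y)).card : ℝ) := by
    exact_mod_cast (card_le_card h2).trans (card_union_le _ _)
  have h4 := lower j Y hj
  set L := Real.log ((Y : ℝ) + 1) with hL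
  have hLpos : 0 < L := Real.log_pos (by
    have : (1 : ℝ) ≤ Y := by exact_mod_cast hY
    linarith)
  set D := Ds (fun q => if q ∈ pr (Y * Y) then (wt j q : ℝ) else 0) (Y * Y) with hD
  have hD0 : 0 ≤ D := Ds_nonneg (fun q _ => by
    split_ifs
    · exact Nat.cast_nonneg _
    · exact le_refl _) _
  have hDpos : 0 < D := by
    rcases hD0.lt_or_eq with h | h
    · exact h
    · exfalso
      rw [← h, mul_zero] at h4
      have : 0 < L ^ 2 := by positivity
      linarith
  have h5 : (a : ℝ) / D ≤ Gj j * (a / L ^ 2) := by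
    rw [mul_div_assoc', div_le_div_iff₀ hDpos (by positivity)]
    have ha : (0 : ℝ) ≤ a := Nat.cast_nonneg a
    nlinarith [mul_le_mul_of_nonneg_left h4 ha]
  have h6 : ((Icc 1 (Y * Y)).card : ℝ) = (Y : ℝ) ^ 2 := by
    rw [Nat.card_Icc, Nat.add_sub_cancel]
    push_cast
    ring
  have h7 : (((Y * Y : ℕ) : ℝ)) ^ 6 = (Y : ℝ) ^ 12 := by
    push_cast
    ring
  rw [h6] at h3
  rw [h7] at h1
  linarith

open Classical in
theorem all_bound (a j Y : ℕ) (hj : j ≠ 0) (hY : 1 ≤ Y) :
    (((range (a + 1)).filter fun p => p.Prime ∧ (p + j).Prime).card : ℝ) ≤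
      Gj j * (a / Real.log (Y + 1) ^ 2) + ((Y : ℝ) ^ 12 + (Y : ℝ) ^ 2 + 1) := by
  by_cases hj2 : 2 ∣ j
  · have := even_bound a j Y hj hj2 hY
    linarith
  · have h1 : ((range (a + 1)).filter fun p => p.Prime ∧ (p + j).Prime) ⊆ {2} := by
      intro p hp
      rw [mem_filter, mem_range] at hp
      rw [mem_singleton]
      rcases hp.2.1.eq_two_or_odd' with h | h
      · exact h
      · exfalso
        have h2 : 2 ∣ p + j := by
          rw [← even_iff_two_dvd]
          have h3 : Odd j := by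
            rw [← Nat.not_even_iff_odd, even_iff_two_dvd]
            exact hj2
          exact h.add_odd h3
        rw [Nat.prime_dvd_prime_iff_eq Nat.prime_two hp.2.2] at h2
        have := hp.2.1.two_le
        omega
    have h2 : (((range (a + 1)).filter fun p => p.Prime ∧ (p + j).Prime).card : ℝ) ≤ 1 := by
      exact_mod_cast (card_le_card h1).trans (by simp)
    have hG : 0 ≤ Gj j := by
      unfold Gj
      refine Finset.prod_nonneg fun q hq => ?_
      have hq1 : (1 : ℝ) ≤ q := by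
        exact_mod_cast (Nat.prime_of_mem_primeFactors hq).one_lt.le
      have : 1 / (q : ℝ) ≤ 1 := by
        rw [div_le_one (by linarith)]
        exact hq1
      exact inv_nonneg.2 (by linarith)
    have h3 : 0 ≤ Gj j * (a / Real.log (Y + 1) ^ 2) := by positivity
    have h4 : (0 : ℝ) ≤ (Y : ℝ) ^ 12 := by positivity
    have h5 : (0 : ℝ) ≤ (Y : ℝ) ^ 2 := by positivity
    linarith

end PairAux

open PairAux Classical in
theorem pairP : SPair := by
  refine ⟨2304, by norm_num, fun a h ha hh => ?_⟩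
  have ha1 : (1 : ℝ) ≤ a := by exact_mod_cast (by omega : 1 ≤ a)
  have ha2 : (2 : ℝ) ≤ a := by exact_mod_cast ha
  set Y : ℕ := ⌊(a : ℝ) ^ (1 / 24 : ℝ)⌋₊ with hYdef
  have hr0 : (0 : ℝ) ≤ (a : ℝ) ^ (1 / 24 : ℝ) := by positivity
  have hY1 : (Y : ℝ) ≤ (a : ℝ) ^ (1 / 24 : ℝ) := Nat.floor_le hr0
  have hY2 : (a : ℝ) ^ (1 / 24 : ℝ) < (Y : ℝ) + 1 := Nat.lt_floor_add_one _
  have hY : 1 ≤ Y := by
    rw [hYdef, Nat.one_le_floor_iff]
    exact Real.one_le_rpow ha1 (by norm_num)
  have hYr : (1 : ℝ) ≤ Y := by exact_mod_cast hY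
  have hla : 0 < Real.log a := Real.log_pos (by linarith)
  have hlog : Real.log a / 24 ≤ Real.log ((Y : ℝ) + 1) := by
    have h1 := Real.log_le_log (by positivity) hY2.le
    rw [Real.log_rpow (by linarith)] at h1
    linarith
  have hY12 : (Y : ℝ) ^ 12 ≤ Real.sqrt a := by
    have h1 : (Y : ℝ) ^ 12 ≤ ((a : ℝ) ^ (1 / 24 : ℝ)) ^ 12 := pow_le_pow_left₀ (by linarith) hY1 12
    have h2 : ((a : ℝ) ^ (1 / 24 : ℝ)) ^ 12 = (a : ℝ) ^ (1 / 2 : ℝ) := by
      rw [← Real.rpow_natCast, ← Real.rpow_mul (by linarith)]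
      norm_num
    rw [h2] at h1
    rw [Real.sqrt_eq_rpow]
    exact h1
  have hYY : (Y : ℝ) ^ 2 ≤ (Y : ℝ) ^ 12 := pow_le_pow_right₀ hYr (by norm_num)
  have hY1' : (1 : ℝ) ≤ (Y : ℝ) ^ 12 := one_le_pow₀ hYr
  have hsub : ((range (a + 1)).filter fun p => p.Prime ∧ ∃ q : ℕ, q.Prime ∧ p < q ∧ q ≤ p + h) ⊆
      (Icc 1 h).biUnion fun j => (range (a + 1)).filter fun p => p.Prime ∧ (p + j).Prime := by
    intro p hp
    rw [mem_filter] at hp
    obtain ⟨hp1, hp2, q, hq1, hq2, hq3⟩ := hp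
    rw [mem_biUnion]
    refine ⟨q - p, ?_, ?_⟩
    · rw [mem_Icc]
      omega
    · rw [mem_filter]
      refine ⟨hp1, hp2, ?_⟩
      rw [Nat.add_sub_cancel' hq2.le]
      exact hq1
  have hcard : (((range (a + 1)).filter fun p => p.Prime ∧
      ∃ q : ℕ, q.Prime ∧ p < q ∧ q ≤ p + h).card : ℝ) ≤
      ∑ j ∈ Icc 1 h, (((range (a + 1)).filter fun p => p.Prime ∧ (p + j).Prime).card : ℝ) := by
    exact_mod_cast (card_le_card hsub).trans card_biUnion_le
  refine hcard.trans ?_
  have hsum : ∑ j ∈ Icc 1 h, (((range (a + 1)).filter fun p => p.Prime ∧ (p + j).Prime).card : ℝ) ≤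
      ∑ j ∈ Icc 1 h, (Gj j * (a / Real.log (Y + 1) ^ 2) + ((Y : ℝ) ^ 12 + (Y : ℝ) ^ 2 + 1)) := by
    refine Finset.sum_le_sum fun j hj => ?_
    rw [mem_Icc] at hj
    exact all_bound a j Y (by omega) hY
  refine hsum.trans ?_
  rw [Finset.sum_add_distrib, ← Finset.sum_mul, Finset.sum_const, Nat.card_Icc, nsmul_eq_mul]
  have hG := sum_Gj h
  have hhr : (0 : ℝ) ≤ h := Nat.cast_nonneg h
  have hLpos : 0 < Real.log ((Y : ℝ) + 1) := lt_of_lt_of_le (by positivity) hlog
  have h1 : (a : ℝ) / Real.log (Y + 1) ^ 2 ≤ 576 * (a / Real.log a ^ 2) := by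
    have h2 : Real.log a ^ 2 ≤ 576 * Real.log ((Y : ℝ) + 1) ^ 2 := by
      have h3 : Real.log a ≤ 24 * Real.log ((Y : ℝ) + 1) := by linarith
      have := pow_le_pow_left₀ hla.le h3 2
      nlinarith
    rw [← mul_div_assoc, div_le_div_iff₀ (by positivity) (by positivity)]
    nlinarith
  have h2 : (∑ j ∈ Icc 1 h, Gj j) * ((a : ℝ) / Real.log (Y + 1) ^ 2) ≤
      (4 * h) * (576 * (a / Real.log a ^ 2)) :=
    mul_le_mul hG h1 (by positivity) (by positivity)
  have h3 : ((h + 1 - 1 : ℕ) : ℝ) * ((Y : ℝ) ^ 12 + (Y : ℝ) ^ 2 + 1) ≤ h * (3 * Real.sqrt a) := by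
    rw [Nat.add_sub_cancel]
    refine mul_le_mul_of_nonneg_left ?_ hhr
    linarith
  have h4 : (0 : ℝ) ≤ h * Real.sqrt a := by positivity
  nlinarith

end Pool.Agent.H18.PM
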