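import Pool.Agent.H18.PM.Blk

/-!
# MP_b4eed3_nt, project PM: exponential rarity
-/

set_option autoImplicit false

namespace Pool.Agent.H18.PM

open Finset Classical Filter Topology

theorem rr_ev (K : ℝ) : ∀ᶠ L : ℝ in atTop, K * L ^ 3 ≤ Real.exp (L / 2) := by
  have h := Real.tendsto_pow_mul_exp_neg_atTop_nhds_zero 3
  have h1 : Tendsto (fun L : ℝ => (L / 2) ^ 3 * Real.exp (-(L / 2))) atTop (𝓝 0) :=
    h.comp (tendsto_id.atTop_div_const (by norm_num))
  have h2 := h1.eventually (gt_mem_nhds (show (0 : ℝ) < 1 / (8 * (|K| + 1)) by positivity))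
  filter_upwards [h2, eventually_ge_atTop (0 : ℝ)] with L hL hL0
  have e : Real.exp (-(L / 2)) * Real.exp (L / 2) = 1 := by
    rw [← Real.exp_add]
    simp
  have hp := Real.exp_pos (L / 2)
  have h3 : (L / 2) ^ 3 ≤ 1 / (8 * (|K| + 1)) * Real.exp (L / 2) := by
    calc (L / 2) ^ 3 = (L / 2) ^ 3 * (Real.exp (-(L / 2)) * Real.exp (L / 2)) := by
          rw [e, mul_one]
      _ = ((L / 2) ^ 3 * Real.exp (-(L / 2))) * Real.exp (L / 2) := by ring
      _ ≤ 1 / (8 * (|K| + 1)) * Real.exp (L / 2) := mul_le_mul_of_nonneg_right hL.le hp.le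
  have h4 : K * L ^ 3 ≤ (|K| + 1) * L ^ 3 := by
    refine mul_le_mul_of_nonneg_right ?_ (by positivity)
    linarith [le_abs_self K]
  have h5 : (|K| + 1) * L ^ 3 = 8 * (|K| + 1) * (L / 2) ^ 3 := by ring
  have h6 : 8 * (|K| + 1) * (L / 2) ^ 3 ≤
      8 * (|K| + 1) * (1 / (8 * (|K| + 1)) * Real.exp (L / 2)) :=
    mul_le_mul_of_nonneg_left h3 (by positivity)
  have h7 : 8 * (|K| + 1) * (1 / (8 * (|K| + 1)) * Real.exp (L / 2)) = Real.exp (L / 2) := by
    field_simp
  linarith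

/-- the primes just above `a / 2` -/
theorem rr_low (a D : ℕ) : ((hp a).filter fun p => 2 * p < a + D + 1).card ≤ D := by
  have h1 : ((hp a).filter fun p => 2 * p < a + D + 1).card ≤ (Icc 1 D).card := by
    refine card_le_card_of_injOn (fun p => 2 * p - a) ?_ ?_
    · intro p hp
      obtain ⟨h1, h2⟩ := mem_filter.1 (mem_coe.1 hp)
      unfold Pool.Agent.H18.PM.hp at h1
      obtain ⟨-, -, h3⟩ := mem_filter.1 h1
      refine mem_coe.2 (mem_Icc.2 ?_)
      show 1 ≤ 2 * p - a ∧ 2 * p - a ≤ D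
      omega
    · intro p hp q hq hpq
      obtain ⟨h1, -⟩ := mem_filter.1 (mem_coe.1 hp)
      obtain ⟨h2, -⟩ := mem_filter.1 (mem_coe.1 hq)
      unfold Pool.Agent.H18.PM.hp at h1 h2
      obtain ⟨-, -, h3⟩ := mem_filter.1 h1
      obtain ⟨-, -, h4⟩ := mem_filter.1 h2
      have h5 : 2 * p - a = 2 * q - a := hpq
      omega
  rwa [Nat.card_Icc, Nat.add_sub_cancel] at h1

theorem rr_L {η L : ℝ} (h0 : 0 < η) (h8 : η ≤ 1 / 8) (h : 4 ≤ η * L) : 32 ≤ L := by
  by_contra hc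
  rw [not_le] at hc
  have h1 : η * L < η * 32 := mul_lt_mul_of_pos_left hc h0
  linarith

theorem rr_D {D L : ℝ} (h0 : 0 ≤ D) (h8 : D ≤ L / 8) (h : 32 ≤ L) :
    D * L ≤ L ^ 3 ∧ D * (D + 1) ≤ L ^ 2 := by
  have h1 : D ≤ L := by linarith
  have h2 : D + 1 ≤ L := by linarith
  have h3 : (1 : ℝ) ≤ L := by linarith
  have h4 : 0 ≤ L := by linarith
  constructor
  · calc D * L ≤ L * L := mul_le_mul_of_nonneg_right h1 h4
      _ = L * L * 1 := by ring
      _ ≤ L * L * L := mul_le_mul_of_nonneg_left h3 (mul_nonneg h4 h4)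
      _ = L ^ 3 := by ring
  · calc D * (D + 1) ≤ L * L := mul_le_mul h1 h2 (by linarith) h4
      _ = L ^ 2 := by ring

/-- M4: exponential rarity -/
theorem rareW (h1 : SCheb) (h2 : SPair) : SRareW := by
  obtain ⟨c₀, hc₀, a₁, h1⟩ := h1
  obtain ⟨C, hC, h2⟩ := h2
  set η : ℝ := min (1 / 8) (c₀ / (8 * (C + 1))) with hη
  have hη0 : 0 < η := lt_min (by norm_num) (by positivity)
  have hη8 : η ≤ 1 / 8 := min_le_left _ _
  have hηC : C * η ≤ c₀ / 8 := by
    have h3 : η ≤ c₀ / (8 * (C + 1)) := min_le_right _ _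
    calc C * η ≤ (C + 1) * (c₀ / (8 * (C + 1))) :=
          mul_le_mul (by linarith) h3 hη0.le (by positivity)
      _ = c₀ / 8 := by field_simp
  set K : ℝ := 8 * (C + 4) / c₀ with hK
  have hev : ∀ᶠ a : ℕ in atTop, 4 / η ≤ Real.log a ∧
      K * Real.log a ^ 3 ≤ Real.exp (Real.log a / 2) :=
    (Real.tendsto_log_atTop.comp tendsto_natCast_atTop_atTop).eventually
      ((eventually_ge_atTop (4 / η)).and (rr_ev K))
  obtain ⟨a₂, h3⟩ := eventually_atTop.1 hev
  refine ⟨c₀ * η / 4, by positivity, max (max a₁ a₂) 2, fun a ha => ?_⟩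
  have ha1 : a₁ ≤ a := (le_max_left _ _).trans ((le_max_left _ _).trans ha)
  have ha2 : a₂ ≤ a := (le_max_right _ _).trans ((le_max_left _ _).trans ha)
  have ha3 : 2 ≤ a := (le_max_right _ _).trans ha
  obtain ⟨h4, h5⟩ := h3 a ha2
  have hapos : (0 : ℝ) < a := by
    have : 0 < a := by omega
    exact_mod_cast this
  set L : ℝ := Real.log a with hL
  set E : ℝ := Real.exp (L / 2) with hE
  have hEpos : 0 < E := Real.exp_pos _
  have hEE : E * E = a := by
    rw [hE, ← Real.exp_add, add_halves, hL, Real.exp_log hapos]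
  have hηL : 4 ≤ η * L := by
    rw [div_le_iff₀ hη0] at h4
    linarith
  have hL32 : 32 ≤ L := rr_L hη0 hη8 hηL
  have hLpos : 0 < L := by linarith
  have hE1 : 1 ≤ E := by
    rw [hE]
    exact Real.one_le_exp (by linarith)
  have hEa : E ≤ a := by
    rw [← hEE]
    exact le_mul_of_one_le_left hEpos.le hE1
  have hsq : Real.sqrt a = E := by
    rw [← hEE]
    exact Real.sqrt_mul_self hEpos.le
  have hCL : 8 * C * L ^ 3 ≤ c₀ * E ∧ 32 * L ^ 3 ≤ c₀ * E := by
    have h6 : K * L ^ 3 * c₀ ≤ E * c₀ := mul_le_mul_of_nonneg_right h5 hc₀.le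
    have h7 : K * L ^ 3 * c₀ = 8 * C * L ^ 3 + 32 * L ^ 3 := by
      rw [hK]
      field_simp
      ring
    have h8 : 0 ≤ 8 * C * L ^ 3 := by positivity
    have h9 : 0 ≤ 32 * L ^ 3 := by positivity
    constructor <;> linarith
  set D : ℕ := ⌊η * L⌋₊ with hD
  have hD1 : (D : ℝ) ≤ η * L := Nat.floor_le (by positivity)
  have hD2 : η * L < D + 1 := Nat.lt_floor_add_one _
  have hD4 : 4 ≤ D := Nat.le_floor (by exact_mod_cast hηL)
  have hD8 : (D : ℝ) ≤ L / 8 := by
    refine hD1.trans ?_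
    have h6 := mul_le_mul_of_nonneg_right hη8 hLpos.le
    linarith
  have hLa : L ≤ a := by
    have := Real.log_le_sub_one_of_pos hapos
    linarith
  set P := hp a with hP
  set B1 := P.filter fun p => ∃ q : ℕ, q.Prime ∧ p < q ∧ q ≤ p + D with hB1
  set B2 := P.filter fun p : ℕ => ∃ U V : Finset ℕ, U ⊆ Icc 2 D ∧ V ⊆ Icc 2 D ∧ U ≠ V ∧
    ((p : ℤ) ∣ H46.PF.MM D U - H46.PF.MM D V) with hB2
  set B3 := P.filter fun p => 2 * p < a + D + 1 with hB3
  set P3 := P \ (B1 ∪ B2 ∪ B3) with hP3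
  have hmem : ∀ p ∈ P, p.Prime ∧ p ≤ a ∧ a < 2 * p := by
    intro p hp
    rw [hP] at hp
    unfold Pool.Agent.H18.PM.hp at hp
    obtain ⟨h2, h3, h4⟩ := mem_filter.1 hp
    rw [mem_range] at h2
    exact ⟨h3, by omega, h4⟩
  have hP3s : P3 ⊆ P := sdiff_subset
  have hP3n : ∀ p ∈ P3, p ∉ B1 ∧ p ∉ B2 ∧ p ∉ B3 := by
    intro p hp
    have h6 := (mem_sdiff.1 hp).2
    rw [mem_union, mem_union] at h6
    tauto
  have hcount := pmb_count (a := a) (D := D) (by omega) hP3s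
    (fun p hp => by
      by_contra hc
      exact (hP3n p hp).2.2 (mem_filter.2 ⟨hP3s hp, by omega⟩))
    (fun p hp => by
      have h6 := (hmem p (hP3s hp)).2.2
      have h7 : (2 : ℝ) * D ≤ a := by linarith
      have h8 : 2 * D ≤ a := by exact_mod_cast h7
      omega)
    (fun p hp q hq hpq => by
      by_contra hc
      exact (hP3n p hp).1 (mem_filter.2 ⟨hP3s hp, q, (hmem q (hP3s hq)).1, hpq, by omega⟩))
    (fun p hp U V hU hV hd => by
      by_contra hc
      exact (hP3n p hp).2.1 (mem_filter.2 ⟨hP3s hp, U, V, hU, hV, hc, hd⟩))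
  obtain ⟨hle, hcount⟩ := hcount
  -- sizes
  have hB1c : (B1.card : ℝ) ≤ C * D * (a / L ^ 2 + E) := by
    have h6 := h2 a D ha3 (by omega)
    rw [hsq] at h6
    refine le_trans ?_ h6
    have h7 : B1.card ≤ ((range (a + 1)).filter fun p => p.Prime ∧
        ∃ q : ℕ, q.Prime ∧ p < q ∧ q ≤ p + D).card := by
      refine card_le_card fun p hp => ?_
      obtain ⟨h8, h9⟩ := mem_filter.1 hp
      obtain ⟨h10, h11, -⟩ := hmem p h8
      exact mem_filter.2 ⟨mem_range.2 (by omega), h10, h9⟩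
    exact_mod_cast h7
  have hB2c : (B2.card : ℝ) ≤ 4 ^ D * (D * (D + 1)) := by
    have h6 : B2.card ≤ 4 ^ D * (D * (D + 1)) := pmb_bad a D
    exact_mod_cast h6
  have hB3c : (B3.card : ℝ) ≤ D := by
    have h6 : B3.card ≤ D := rr_low a D
    exact_mod_cast h6
  have hPc : (P.card : ℝ) ≤ P3.card + (B1.card + B2.card + B3.card) := by
    have h6 : P ⊆ P3 ∪ (B1 ∪ B2 ∪ B3) := by
      intro p hp
      by_cases h7 : p ∈ B1 ∪ B2 ∪ B3
      · exact mem_union_right _ h7
      · exact mem_union_left _ (mem_sdiff.2 ⟨hp, h7⟩)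
    have h7 := (card_le_card h6).trans (card_union_le _ _)
    have h8 := card_union_le (B1 ∪ B2) B3
    have h9 := card_union_le B1 B2
    have h10 : P.card ≤ P3.card + (B1.card + B2.card + B3.card) := by omega
    exact_mod_cast h10
  have hPl : c₀ * a ≤ P.card * L := by
    have h6 := h1 a ha1
    rwa [div_le_iff₀ hLpos] at h6
  have hD0 : (0 : ℝ) ≤ D := Nat.cast_nonneg D
  have hB1L : (B1.card : ℝ) * L ≤ c₀ * a / 4 := by
    have h6 : (B1.card : ℝ) * L ≤ C * D * (a / L ^ 2 + E) * L :=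
      mul_le_mul_of_nonneg_right hB1c hLpos.le
    have h7 : C * D * (a / L ^ 2 + E) * L = C * (D * (a / L)) + C * D * L * E := by
      field_simp
    have h8 : (D : ℝ) * (a / L) ≤ η * a := by
      have h9 : (D : ℝ) * (a / L) ≤ η * L * (a / L) :=
        mul_le_mul_of_nonneg_right hD1 (by positivity)
      have h10 : η * L * ((a : ℝ) / L) = η * a := by field_simp
      linarith
    have h9 : C * ((D : ℝ) * (a / L)) ≤ c₀ * a / 8 := by
      calc C * ((D : ℝ) * (a / L)) ≤ C * (η * a) := mul_le_mul_of_nonneg_left h8 hC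
        _ = C * η * a := by ring
        _ ≤ c₀ / 8 * a := mul_le_mul_of_nonneg_right hηC hapos.le
        _ = c₀ * a / 8 := by ring
    have h10 : C * D * L * E ≤ c₀ * a / 8 := by
      have h11 : (D : ℝ) * L ≤ L ^ 3 := (rr_D hD0 hD8 hL32).1
      have h12 : C * (D * L) ≤ C * L ^ 3 := mul_le_mul_of_nonneg_left h11 hC
      have h13 : C * (D * L) ≤ c₀ * E / 8 := by linarith [hCL.1]
      calc C * D * L * E = C * (D * L) * E := by ring
        _ ≤ c₀ * E / 8 * E := mul_le_mul_of_nonneg_right h13 hEpos.le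
        _ = c₀ * (E * E) / 8 := by ring
        _ = c₀ * a / 8 := by rw [hEE]
    linarith
  have hDD : (D : ℝ) * (D + 1) ≤ L ^ 2 := (rr_D hD0 hD8 hL32).2
  have h4D : (4 : ℝ) ^ D ≤ E := by
    have h6 : (4 : ℝ) ^ D = Real.exp (D * Real.log 4) := by
      rw [mul_comm, Real.exp_mul, Real.exp_log (by norm_num), Real.rpow_natCast]
    rw [h6, hE]
    refine Real.exp_le_exp.2 ?_
    have h7 : Real.log 4 ≤ 2 := by
      have h8 : Real.log 4 = 2 * Real.log 2 := by
        rw [show (4 : ℝ) = 2 ^ 2 by norm_num, Real.log_pow]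
        norm_num
      have h9 := Real.log_two_lt_d9
      linarith
    have h8 : (D : ℝ) * Real.log 4 ≤ D * 2 := mul_le_mul_of_nonneg_left h7 hD0
    linarith
  have hB2L : (B2.card : ℝ) * L ≤ c₀ * a / 32 := by
    have h6 : (4 : ℝ) ^ D * (D * (D + 1)) ≤ E * L ^ 2 :=
      mul_le_mul h4D hDD (by positivity) hEpos.le
    calc (B2.card : ℝ) * L ≤ E * L ^ 2 * L :=
          mul_le_mul_of_nonneg_right (hB2c.trans h6) hLpos.le
      _ = L ^ 3 * E := by ring
      _ ≤ c₀ * E / 32 * E := mul_le_mul_of_nonneg_right (by linarith [hCL.2]) hEpos.le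
      _ = c₀ * (E * E) / 32 := by ring
      _ = c₀ * a / 32 := by rw [hEE]
  have hB3L : (B3.card : ℝ) * L ≤ c₀ * a / 32 := by
    have h6 : (B3.card : ℝ) * L ≤ D * L := mul_le_mul_of_nonneg_right hB3c hLpos.le
    have h7 : (D : ℝ) * L ≤ L ^ 3 := (rr_D hD0 hD8 hL32).1
    have h8 : c₀ * E ≤ c₀ * a := mul_le_mul_of_nonneg_left hEa hc₀.le
    linarith [hCL.2]
  have hP3L : c₀ * a / 2 ≤ P3.card * L := by
    have h6 := mul_le_mul_of_nonneg_right hPc hLpos.le
    have h7 : ((P3.card : ℝ) + (B1.card + B2.card + B3.card)) * L =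
        P3.card * L + B1.card * L + B2.card * L + B3.card * L := by ring
    have h8 : 0 < c₀ * a := by positivity
    linarith
  have hfin : c₀ * η / 4 * a ≤ ((P3.card * (D - 1) : ℕ) : ℝ) := by
    rw [Nat.cast_mul, Nat.cast_sub (by omega)]
    have h6 : η * L / 2 ≤ (D : ℝ) - ((1 : ℕ) : ℝ) := by
      push_cast
      linarith
    have h7 : (P3.card : ℝ) * (η * L / 2) ≤ P3.card * ((D : ℝ) - ((1 : ℕ) : ℝ)) :=
      mul_le_mul_of_nonneg_left h6 (Nat.cast_nonneg _)
    refine le_trans ?_ h7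
    have h8 : (P3.card : ℝ) * (η * L / 2) = η / 2 * (P3.card * L) := by ring
    rw [h8]
    have h9 := mul_le_mul_of_nonneg_left hP3L (show 0 ≤ η / 2 by positivity)
    linarith
  have h6 : (((Ico a (2 * a)).powerset.filter fun U => Dw a (fs U)).card : ℝ) ≤
      2 ^ (a - P3.card * (D - 1)) := by exact_mod_cast hcount
  refine h6.trans ?_
  rw [← Real.rpow_natCast, Nat.cast_sub hle]
  refine Real.rpow_le_rpow_of_exponent_le (by norm_num) ?_
  have h7 : (1 - c₀ * η / 4) * (a : ℝ) = a - c₀ * η / 4 * a := by ring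
  rw [h7]
  linarith

end Pool.Agent.H18.PM
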