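import Pool.Agent.H18.PM.StmW

/-!
# MP_b4eed3_nt, project PM: uniqueness of powerful sums above the smallest index
-/

set_option autoImplicit false

namespace Pool.Agent.H18.PM

open Finset Classical

theorem pmu_fs_sdiff (S S' : Finset ℕ) : fs S = fs (S ∩ S') + fs (S \ S') := by
  unfold fs
  rw [← sum_union (disjoint_left.2 fun x hx hx' => (mem_sdiff.1 hx').2 (mem_inter.1 hx).2)]
  congr 1
  ext x
  rw [mem_union, mem_inter, mem_sdiff]
  tauto

theorem pmu_sum_lt (m : ℕ) : ∑ n ∈ Ico 1 m, n.factorial < m.factorial := by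
  induction m with
  | zero => simp
  | succ m ih =>
    rcases Nat.eq_zero_or_pos m with h | h
    · subst h
      simp
    · rw [sum_Ico_succ_top h, Nat.factorial_succ]
      have h1 : 0 < m.factorial := Nat.factorial_pos m
      nlinarith

theorem pmu_fs_lt {T : Finset ℕ} {m : ℕ} (h : ∀ n ∈ T, 1 ≤ n ∧ n < m) : fs T < m.factorial := by
  refine lt_of_le_of_lt ?_ (pmu_sum_lt m)
  unfold fs
  exact sum_le_sum_of_subset fun n hn => mem_Ico.2 (h n hn)

theorem pmu_sq_fac {a p : ℕ} (hp : p.Prime) (h : a < 2 * p) : ¬ p ^ 2 ∣ a.factorial := by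
  intro hd
  have h2 : a < p ^ 2 := lt_of_lt_of_le h (by rw [sq]; exact Nat.mul_le_mul_right _ hp.two_le)
  have h3 : Nat.log p a < 2 := Nat.log_lt_of_lt_pow' (by norm_num) h2
  rw [hp.pow_dvd_factorial_iff h3] at hd
  have h4 : ∑ i ∈ Ico 1 2, a / p ^ i = a / p := by simp
  rw [h4] at hd
  have h5 : a / p < 2 := Nat.div_lt_of_lt_mul (by rw [mul_comm]; exact h)
  omega

theorem pmu_prod_dvd {a Z : ℕ} (h1 : a.factorial ∣ Z)
    (h2 : ∀ p : ℕ, p.Prime → a < 2 * p → p ≤ a → p ^ 2 ∣ Z) : ∏ p ∈ hp a, p ∣ Z / a.factorial := by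
  refine prod_primes_dvd _ (fun p hp => ?_) fun p hp => ?_
  · unfold Pool.Agent.H18.PM.hp at hp
    exact (mem_filter.1 hp).2.1.prime
  · unfold Pool.Agent.H18.PM.hp at hp
    obtain ⟨hp1, hp2, hp3⟩ := mem_filter.1 hp
    rw [mem_range] at hp1
    obtain ⟨E, rfl⟩ := h1
    rw [Nat.mul_div_cancel_left _ (Nat.factorial_pos a)]
    by_contra hc
    have h3 := h2 p hp2 hp3 (by omega)
    have h4 : Nat.Coprime (p ^ 2) E := ((Nat.Prime.coprime_iff_not_dvd hp2).2 hc).pow_left 2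
    exact pmu_sq_fac hp2 hp3 (h4.dvd_of_dvd_mul_right h3)

theorem pmu_fac_le {a m : ℕ} (h : a ≤ m) : m.factorial ≤ a.factorial * m ^ (m - a) := by
  have h1 := Nat.factorial_mul_descFactorial (n := m) (k := m - a) (by omega)
  rw [Nat.sub_sub_self h] at h1
  rw [← h1]
  exact Nat.mul_le_mul_left _ (Nat.descFactorial_le_pow _ _)

/-- the main inequality -/
theorem pmu_main {a m : ℕ} {S S' : Finset ℕ} (ha : 1 ≤ a) (hS : ∀ n ∈ S, a ≤ n)
    (hS' : ∀ n ∈ S', a ≤ n) (hd : Dw a (fs S)) (hd' : Dw a (fs S')) (hm : m ∈ S) (hm' : m ∉ S')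
    (hmax : ∀ n, (n ∈ S ∧ n ∉ S' ∨ n ∈ S' ∧ n ∉ S) → n ≤ m) :
    a ^ (hp a).card ≤ 2 ^ ((hp a).card + 1) * m ^ (m - a) := by
  set X := fs (S \ S') with hX
  set Y := fs (S' \ S) with hY
  have e1 : fs S = fs (S ∩ S') + X := pmu_fs_sdiff S S'
  have e2 : fs S' = fs (S ∩ S') + Y := by
    rw [inter_comm]
    exact pmu_fs_sdiff S' S
  have hYm : Y < m.factorial := pmu_fs_lt fun n hn => by
    obtain ⟨h1, h2⟩ := mem_sdiff.1 hn
    have h3 := hmax n (Or.inr ⟨h1, h2⟩)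
    have h4 : n ≠ m := fun h => hm' (h ▸ h1)
    have h5 := hS' n h1
    omega
  have hXm : m.factorial ≤ X := by
    rw [hX]
    unfold fs
    exact single_le_sum (f := fun n : ℕ => n.factorial) (fun _ _ => Nat.zero_le _)
      (mem_sdiff.2 ⟨hm, hm'⟩)
  have hXm2 : X ≤ 2 * m.factorial := by
    have h1 : X = m.factorial + fs ((S \ S').erase m) := by
      rw [hX]
      unfold fs
      exact (add_sum_erase _ _ (mem_sdiff.2 ⟨hm, hm'⟩)).symm
    have h2 : fs ((S \ S').erase m) < m.factorial := pmu_fs_lt fun n hn => by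
      obtain ⟨h2, h3⟩ := mem_erase.1 hn
      obtain ⟨h4, h5⟩ := mem_sdiff.1 h3
      have h6 := hmax n (Or.inl ⟨h4, h5⟩)
      have h7 := hS n h4
      omega
    omega
  have hZ1 : a.factorial ∣ X - Y := by
    refine Nat.dvd_sub ?_ ?_
    · exact dvd_sum fun n hn => Nat.factorial_dvd_factorial (hS n (mem_sdiff.1 hn).1)
    · exact dvd_sum fun n hn => Nat.factorial_dvd_factorial (hS' n (mem_sdiff.1 hn).1)
  have hZ2 : ∀ p : ℕ, p.Prime → a < 2 * p → p ≤ a → p ^ 2 ∣ X - Y := fun p hp hp2 hpa => by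
    have h1 : X - Y = fs S - fs S' := by omega
    rw [h1]
    exact Nat.dvd_sub (hd p hp hp2 hpa) (hd' p hp hp2 hpa)
  have hE := pmu_prod_dvd hZ1 hZ2
  have hpos : 0 < X - Y := by omega
  have hEpos : 0 < (X - Y) / a.factorial :=
    Nat.div_pos (Nat.le_of_dvd hpos hZ1) (Nat.factorial_pos a)
  have h1 : ∏ p ∈ hp a, p ≤ (X - Y) / a.factorial := Nat.le_of_dvd hEpos hE
  have ham : a ≤ m := hS m hm
  have h2 : (X - Y) / a.factorial ≤ 2 * m ^ (m - a) := by
    refine Nat.div_le_of_le_mul ?_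
    have h3 := pmu_fac_le ham
    calc X - Y ≤ 2 * m.factorial := by omega
      _ ≤ 2 * (a.factorial * m ^ (m - a)) := Nat.mul_le_mul_left _ h3
      _ = a.factorial * (2 * m ^ (m - a)) := by ring
  have h3 : a ^ (hp a).card ≤ 2 ^ (hp a).card * ∏ p ∈ hp a, p := by
    rw [← prod_const, ← prod_const, ← prod_mul_distrib]
    refine prod_le_prod' fun p hpp => ?_
    unfold Pool.Agent.H18.PM.hp at hpp
    exact (mem_filter.1 hpp).2.2.le
  calc a ^ (hp a).card ≤ 2 ^ (hp a).card * ∏ p ∈ hp a, p := h3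
    _ ≤ 2 ^ (hp a).card * (2 * m ^ (m - a)) := Nat.mul_le_mul_left _ (h1.trans h2)
    _ = 2 ^ ((hp a).card + 1) * m ^ (m - a) := by ring

/-- numerical part -/
theorem pmu_num {c : ℝ} (hc : 0 < c) : ∃ a₀ : ℕ, ∀ a : ℕ, a₀ ≤ a → ∀ k m : ℕ, a ≤ m →
    c * a / Real.log a ≤ (k : ℝ) → a ^ k ≤ 2 ^ (k + 1) * m ^ (m - a) →
    (a : ℝ) + min (c / 8) 1 * a / Real.log a ≤ m := by
  obtain ⟨a₀, ha₀⟩ : ∃ a₀ : ℕ, 4 * 4 * Real.log 2 / c + 16 ≤ a₀ := by
    obtain ⟨a₀, h⟩ := exists_nat_ge (4 * 4 * Real.log 2 / c + 16)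
    exact ⟨a₀, h⟩
  refine ⟨a₀, fun a ha k m ham hk hle => ?_⟩
  have hl2 : 0 < Real.log 2 := Real.log_pos (by norm_num)
  have ha1 : 4 * 4 * Real.log 2 / c + 16 ≤ (a : ℝ) := ha₀.trans (by exact_mod_cast ha)
  have ha16 : (16 : ℝ) ≤ a := by
    have : 0 ≤ 4 * 4 * Real.log 2 / c := by positivity
    linarith
  have hac : 16 * Real.log 2 ≤ c * a := by
    have h1 : 4 * 4 * Real.log 2 / c ≤ a := by linarith
    rw [div_le_iff₀ hc] at h1
    linarith
  have hapos : (0 : ℝ) < a := by linarith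
  have hmpos : (0 : ℝ) < m := lt_of_lt_of_le hapos (by exact_mod_cast ham)
  have hl16 : Real.log 16 = 4 * Real.log 2 := by
    rw [show (16 : ℝ) = 2 ^ 4 by norm_num, Real.log_pow]
    norm_num
  have hla : 4 * Real.log 2 ≤ Real.log a := by
    rw [← hl16]
    exact Real.log_le_log (by norm_num) ha16
  have hl2' : (0.69 : ℝ) < Real.log 2 := by
    have := Real.log_two_gt_d9
    linarith
  have hla1 : 1 ≤ Real.log a := by linarith
  have hla0 : 0 < Real.log a := by linarith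
  by_cases h2 : 2 * a ≤ m
  · have h3 : min (c / 8) 1 * a / Real.log a ≤ a := by
      rw [div_le_iff₀ hla0]
      have h4 : min (c / 8) 1 ≤ 1 := min_le_right _ _
      calc min (c / 8) 1 * (a : ℝ) ≤ 1 * a := mul_le_mul_of_nonneg_right h4 hapos.le
        _ = a * 1 := by ring
        _ ≤ a * Real.log a := mul_le_mul_of_nonneg_left hla1 hapos.le
    have h5 : (2 : ℝ) * a ≤ m := by exact_mod_cast h2
    linarith
  · have h4 : (k : ℝ) * Real.log a ≤ (k + 1) * Real.log 2 + ((m : ℝ) - a) * Real.log m := by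
      have h5 : ((a : ℝ)) ^ k ≤ 2 ^ (k + 1) * (m : ℝ) ^ (m - a) := by exact_mod_cast hle
      have h6 := Real.log_le_log (by positivity) h5
      rw [Real.log_pow, Real.log_mul (by positivity) (by positivity), Real.log_pow,
        Real.log_pow, Nat.cast_sub ham] at h6
      push_cast at h6
      exact h6
    have h5 : Real.log m ≤ 2 * Real.log a := by
      have h6 : (m : ℝ) ≤ a ^ 2 := by
        have h7 : (m : ℝ) ≤ 2 * a := by exact_mod_cast (not_le.1 h2).le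
        nlinarith
      calc Real.log m ≤ Real.log ((a : ℝ) ^ 2) := Real.log_le_log hmpos h6
        _ = 2 * Real.log a := by rw [Real.log_pow]; norm_num
    have hma : (0 : ℝ) ≤ (m : ℝ) - a := by
      have : (a : ℝ) ≤ m := by exact_mod_cast ham
      linarith
    have h6 : ((m : ℝ) - a) * Real.log m ≤ ((m : ℝ) - a) * (2 * Real.log a) :=
      mul_le_mul_of_nonneg_left h5 hma
    have h7 : c * a ≤ (k : ℝ) * Real.log a := by
      rwa [div_le_iff₀ hla0] at hk
    have hk0 : (0 : ℝ) ≤ k := Nat.cast_nonneg k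
    have h8 : (k : ℝ) * Real.log 2 ≤ (k : ℝ) * Real.log a / 4 := by
      have := mul_le_mul_of_nonneg_left hla hk0
      linarith
    have h9 : (k : ℝ) * Real.log a / 2 ≤ ((m : ℝ) - a) * (2 * Real.log a) := by
      nlinarith
    have h10 : min (c / 8) 1 * a / Real.log a ≤ (m : ℝ) - a := by
      have h11 : min (c / 8) 1 ≤ c / 8 := min_le_left _ _
      rw [div_le_iff₀ hla0]
      have h12 : min (c / 8) 1 * (a : ℝ) ≤ c / 8 * a := mul_le_mul_of_nonneg_right h11 hapos.le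
      nlinarith
    linarith

/-- M3: uniqueness, only the primes in `(a / 2, a]` -/
theorem uniW (h : SCheb) : SUniW := by
  obtain ⟨c, hc, a₁, h1⟩ := h
  obtain ⟨a₂, h2⟩ := pmu_num hc
  refine ⟨min (c / 8) 1, lt_min (by positivity) one_pos, max (max a₁ a₂) 1,
    fun a ha S S' hS hS' hd hd' hne => ?_⟩
  have ha1 : a₁ ≤ a := (le_max_left _ _).trans ((le_max_left _ _).trans ha)
  have ha2 : a₂ ≤ a := (le_max_right _ _).trans ((le_max_left _ _).trans ha)
  have ha3 : 1 ≤ a := (le_max_right _ _).trans ha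
  have key : ∀ S S' : Finset ℕ, (∀ n ∈ S, a ≤ n) → (∀ n ∈ S', a ≤ n) → Dw a (fs S) →
      Dw a (fs S') → ∀ m, m ∈ S → m ∉ S' →
      (∀ n, (n ∈ S ∧ n ∉ S' ∨ n ∈ S' ∧ n ∉ S) → n ≤ m) →
      (a : ℝ) + min (c / 8) 1 * a / Real.log a ≤ m := by
    intro S S' hS hS' hd hd' m hm hm' hmax
    exact h2 a ha2 _ m (hS m hm) (h1 a ha1) (pmu_main ha3 hS hS' hd hd' hm hm' hmax)
  set T := (S \ S') ∪ (S' \ S) with hT
  have hTm : ∀ n, n ∈ T ↔ (n ∈ S ∧ n ∉ S' ∨ n ∈ S' ∧ n ∉ S) := fun n => by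
    rw [hT, mem_union, mem_sdiff, mem_sdiff]
  have hTne : T.Nonempty := by
    by_contra hc2
    rw [not_nonempty_iff_eq_empty] at hc2
    apply hne
    ext n
    have h3 := hTm n
    rw [hc2] at h3
    simp only [notMem_empty, false_iff] at h3
    tauto
  refine ⟨T.max' hTne, (hTm _).1 (T.max'_mem hTne), ?_⟩
  have hmax : ∀ n, (n ∈ S ∧ n ∉ S' ∨ n ∈ S' ∧ n ∉ S) → n ≤ T.max' hTne :=
    fun n hn => T.le_max' n ((hTm n).2 hn)
  rcases (hTm _).1 (T.max'_mem hTne) with h3 | h3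
  · exact key S S' hS hS' hd hd' _ h3.1 h3.2 hmax
  · exact key S' S hS' hS hd' hd _ h3.1 h3.2 fun n hn => hmax n hn.symm

/-- M3: uniqueness -/
theorem uni (h : SCheb) : SUni := (uniW h).suni

end Pool.Agent.H18.PM
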