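import Pool.Agent.H18.PM.Cheb
import Pool.Agent.H18.PM.Uni
import Pool.Agent.H18.PM.Rare
import Pool.Agent.H18.PM.Fin
import Pool.Agent.H18.PM.Pair
import Pool.Agent.H18.PM.As

/-!
# MP_b4eed3_nt, project PM: everything together
-/

set_option autoImplicit false

namespace Pool.Agent.H18.PM

theorem uni_all : SUniW := uniW cheb

theorem rare_all : SRareW := rareW cheb pairP

theorem win_all : SWinW := winW uni_all

theorem as_all : SAs := asW (cnt uni_all.suni)

end Pool.Agent.H18.PM
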