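import Pool.Agent.H18.PM.Win
import Pool.Agent.H46.PF.Top

/-!
# MP_b4eed3_nt, project PM: blocks of indices determined by a prime
-/

set_option autoImplicit false

namespace Pool.Agent.H18.PM

open Finset Classical

/-- the block of indices `2 p - 1 - t`, `2 ≤ t ≤ D` -/
def blk (D p : ℕ) : Finset ℕ := (Icc 2 D).image fun t => 2 * p - 1 - t

theorem pmb_mem {D p n : ℕ} (hD : D < p) : n ∈ blk D p ↔ 2 * p - 1 - D ≤ n ∧ n ≤ 2 * p - 3 := by
  unfold blk
  rw [mem_image]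
  constructor
  · rintro ⟨t, ht, rfl⟩
    rw [mem_Icc] at ht
    omega
  · rintro ⟨h1, h2⟩
    by_cases h3 : 2 ≤ D
    · exact ⟨2 * p - 1 - n, mem_Icc.2 (by omega), by omega⟩
    · omega

theorem pmb_card {D p : ℕ} (hD : D < p) : (blk D p).card = D - 1 := by
  unfold blk
  rw [card_image_of_injOn (fun s hs t ht hst => by
    have h1 := mem_Icc.1 (mem_coe.1 hs)
    have h2 := mem_Icc.1 (mem_coe.1 ht)
    have h3 : 2 * p - 1 - s = 2 * p - 1 - t := hst
    omega), Nat.card_Icc]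
  omega

/-- the factorials of a block modulo `p ^ 2` -/
theorem pmb_mod {D p : ℕ} (hp : p.Prime) (hD : D < p) {U : Finset ℕ} (hU : U ⊆ Icc 2 D) :
    (p : ℤ) ^ 2 ∣ ((∑ t ∈ U, (2 * p - 1 - t).factorial : ℕ) : ℤ) +
      p * ((H46.PF.F (H46.PF.top p U) : ℕ) : ℤ) := by
  have h1 : H46.PF.F (H46.PF.top p U) = ∑ t ∈ U, (p - 1 - t).factorial := by
    unfold H46.PF.F H46.PF.top
    rw [sum_image (fun s hs t ht hst => by
      have h1 := mem_Icc.1 (hU hs)
      have h2 := mem_Icc.1 (hU ht)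
      have h3 : p - 1 - s = p - 1 - t := hst
      omega)]
  rw [h1]
  push_cast
  rw [mul_sum, ← sum_add_distrib]
  refine dvd_sum fun t ht => ?_
  have h2 := mem_Icc.1 (hU ht)
  have h3 := H46.PF.fac_sq hp (p - 1 - t)
  rwa [show p + (p - 1 - t) = 2 * p - 1 - t by omega] at h3

/-- the part of `fs` below `2 p` -/
theorem pmb_split {D p : ℕ} (hD : D < p) (A : Finset ℕ) :
    fs (A.filter fun n => n < 2 * p) = fs (A.filter fun n => n < 2 * p ∧ n ∉ blk D p) +
      ∑ t ∈ (Icc 2 D).filter (fun t => 2 * p - 1 - t ∈ A), (2 * p - 1 - t).factorial := by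
  have h1 : ∑ t ∈ (Icc 2 D).filter (fun t => 2 * p - 1 - t ∈ A), (2 * p - 1 - t).factorial =
      fs (A.filter fun n => n < 2 * p ∧ n ∈ blk D p) := by
    unfold fs
    rw [← sum_image (f := fun n : ℕ => n.factorial) (g := fun t => 2 * p - 1 - t)
      (s := (Icc 2 D).filter (fun t => 2 * p - 1 - t ∈ A)) (fun s hs t ht hst => by
        have h1 := mem_Icc.1 (mem_filter.1 (mem_coe.1 hs)).1
        have h2 := mem_Icc.1 (mem_filter.1 (mem_coe.1 ht)).1
        have h3 : 2 * p - 1 - s = 2 * p - 1 - t := hst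
        omega)]
    refine sum_congr ?_ fun _ _ => rfl
    ext n
    rw [mem_image, mem_filter]
    constructor
    · rintro ⟨t, ht, rfl⟩
      obtain ⟨h2, h3⟩ := mem_filter.1 ht
      refine ⟨h3, ?_, mem_image.2 ⟨t, h2, rfl⟩⟩
      rw [mem_Icc] at h2
      omega
    · rintro ⟨h2, h3, h4⟩
      obtain ⟨t, ht, rfl⟩ := mem_image.1 h4
      exact ⟨t, mem_filter.2 ⟨ht, h2⟩, rfl⟩
  rw [h1]
  unfold fs
  rw [← sum_union]
  · refine sum_congr ?_ fun _ _ => rfl
    ext n
    rw [mem_union, mem_filter, mem_filter, mem_filter]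
    tauto
  · rw [disjoint_left]
    intro n h2 h3
    exact (mem_filter.1 h2).2.2 (mem_filter.1 h3).2.2

/-- a prime without collisions determines its block -/
theorem pmb_det {a D p : ℕ} (hp : p.Prime) (hpa : p ≤ a) (hp2 : a < 2 * p) (hD : D < p)
    (hcol : ∀ U V : Finset ℕ, U ⊆ Icc 2 D → V ⊆ Icc 2 D →
      (p : ℤ) ∣ H46.PF.MM D U - H46.PF.MM D V → U = V)
    {A B : Finset ℕ} (hA : Dw a (fs A)) (hB : Dw a (fs B))
    (hAB : ∀ n < 2 * p, n ∉ blk D p → (n ∈ A ↔ n ∈ B)) :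
    ∀ n ∈ blk D p, (n ∈ A ↔ n ∈ B) := by
  have hcut : ∀ S : Finset ℕ, Dw a (fs S) → p ^ 2 ∣ fs (S.filter fun n => n < 2 * p) := by
    intro S hS
    have h1 : fs S = fs (S.filter fun n => n < 2 * p) + fs (S.filter fun n => ¬ n < 2 * p) := by
      unfold fs
      exact (sum_filter_add_sum_filter_not S _ _).symm
    have h2 : p ^ 2 ∣ fs (S.filter fun n => ¬ n < 2 * p) := by
      unfold fs
      refine dvd_sum fun n hn => pmw_big hp.pos ?_
      have h3 := (mem_filter.1 hn).2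
      omega
    have h3 := hS p hp hp2 hpa
    rw [h1] at h3
    exact (Nat.dvd_add_left h2).1 h3
  set U := (Icc 2 D).filter (fun t => 2 * p - 1 - t ∈ A) with hU
  set V := (Icc 2 D).filter (fun t => 2 * p - 1 - t ∈ B) with hV
  have hUs : U ⊆ Icc 2 D := filter_subset _ _
  have hVs : V ⊆ Icc 2 D := filter_subset _ _
  have h1 := hcut A hA
  have h2 := hcut B hB
  rw [pmb_split hD] at h1 h2
  have h3 : A.filter (fun n => n < 2 * p ∧ n ∉ blk D p) =
      B.filter fun n => n < 2 * p ∧ n ∉ blk D p := by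
    ext n
    rw [mem_filter, mem_filter]
    constructor
    · rintro ⟨h4, h5, h6⟩
      exact ⟨(hAB n h5 h6).1 h4, h5, h6⟩
    · rintro ⟨h4, h5, h6⟩
      exact ⟨(hAB n h5 h6).2 h4, h5, h6⟩
  rw [← h3] at h2
  set R := fs (A.filter fun n => n < 2 * p ∧ n ∉ blk D p) with hR
  have h4 : (p : ℤ) ^ 2 ∣ ((∑ t ∈ U, (2 * p - 1 - t).factorial : ℕ) : ℤ) -
      ((∑ t ∈ V, (2 * p - 1 - t).factorial : ℕ) : ℤ) := by
    have h5 : (p : ℤ) ^ 2 ∣ ((R + ∑ t ∈ U, (2 * p - 1 - t).factorial : ℕ) : ℤ) := by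
      exact_mod_cast h1
    have h6 : (p : ℤ) ^ 2 ∣ ((R + ∑ t ∈ V, (2 * p - 1 - t).factorial : ℕ) : ℤ) := by
      exact_mod_cast h2
    have h7 := dvd_sub h5 h6
    rw [Nat.cast_add, Nat.cast_add] at h7
    have h8 : ((R : ℤ) + ((∑ t ∈ U, (2 * p - 1 - t).factorial : ℕ) : ℤ)) -
        ((R : ℤ) + ((∑ t ∈ V, (2 * p - 1 - t).factorial : ℕ) : ℤ)) =
        ((∑ t ∈ U, (2 * p - 1 - t).factorial : ℕ) : ℤ) -
          ((∑ t ∈ V, (2 * p - 1 - t).factorial : ℕ) : ℤ) := by ring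
    rwa [h8] at h7
  have h5 := pmb_mod hp hD hUs
  have h6 := pmb_mod hp hD hVs
  have h7 : (p : ℤ) ^ 2 ∣ p * (((H46.PF.F (H46.PF.top p U) : ℕ) : ℤ) -
      ((H46.PF.F (H46.PF.top p V) : ℕ) : ℤ)) := by
    have h8 := dvd_sub (dvd_sub h5 h6) h4
    have h9 : ((((∑ t ∈ U, (2 * p - 1 - t).factorial : ℕ) : ℤ) +
        p * ((H46.PF.F (H46.PF.top p U) : ℕ) : ℤ)) -
        (((∑ t ∈ V, (2 * p - 1 - t).factorial : ℕ) : ℤ) +
        p * ((H46.PF.F (H46.PF.top p V) : ℕ) : ℤ))) -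
        (((∑ t ∈ U, (2 * p - 1 - t).factorial : ℕ) : ℤ) -
          ((∑ t ∈ V, (2 * p - 1 - t).factorial : ℕ) : ℤ)) =
        p * (((H46.PF.F (H46.PF.top p U) : ℕ) : ℤ) -
          ((H46.PF.F (H46.PF.top p V) : ℕ) : ℤ)) := by ring
    rwa [h9] at h8
  have hp0 : (p : ℤ) ≠ 0 := by exact_mod_cast hp.ne_zero
  have h8 : (p : ℤ) ∣ ((H46.PF.F (H46.PF.top p U) : ℕ) : ℤ) -
      ((H46.PF.F (H46.PF.top p V) : ℕ) : ℤ) := by
    rw [sq] at h7
    exact (mul_dvd_mul_iff_left hp0).1 h7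
  have : Fact p.Prime := ⟨hp⟩
  have h9 : ((H46.PF.F (H46.PF.top p U) : ℕ) : ZMod p) =
      ((H46.PF.F (H46.PF.top p V) : ℕ) : ZMod p) := by
    have h10 := (ZMod.intCast_zmod_eq_zero_iff_dvd _ p).2 h8
    push_cast at h10
    exact sub_eq_zero.1 h10
  have h10 := hcol U V hUs hVs ((H46.PF.top_eq hD hUs hVs).1 h9)
  intro n hn
  obtain ⟨t, ht, rfl⟩ := mem_image.1 hn
  constructor
  · intro h11
    have h12 : t ∈ U := mem_filter.2 ⟨ht, h11⟩
    rw [h10] at h12
    exact (mem_filter.1 h12).2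
  · intro h11
    have h12 : t ∈ V := mem_filter.2 ⟨ht, h11⟩
    rw [← h10] at h12
    exact (mem_filter.1 h12).2

/-- counting with a separated family of primes without collisions -/
theorem pmb_count {a D : ℕ} (hD2 : 2 ≤ D) {P : Finset ℕ} (hP : P ⊆ hp a)
    (hlow : ∀ p ∈ P, a + D + 1 ≤ 2 * p) (hDp : ∀ p ∈ P, D < p)
    (hsep : ∀ p ∈ P, ∀ q ∈ P, p < q → p + D < q)
    (hcol : ∀ p ∈ P, ∀ U V : Finset ℕ, U ⊆ Icc 2 D → V ⊆ Icc 2 D →
      (p : ℤ) ∣ H46.PF.MM D U - H46.PF.MM D V → U = V) :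
    P.card * (D - 1) ≤ a ∧
    ((Ico a (2 * a)).powerset.filter fun U => Dw a (fs U)).card ≤
      2 ^ (a - P.card * (D - 1)) := by
  have hPp : ∀ p ∈ P, p.Prime ∧ p ≤ a ∧ a < 2 * p := by
    intro p hp
    have h1 := hP hp
    unfold Pool.Agent.H18.PM.hp at h1
    obtain ⟨h2, h3, h4⟩ := mem_filter.1 h1
    rw [mem_range] at h2
    exact ⟨h3, by omega, h4⟩
  set W := P.biUnion (blk D) with hW
  have hWs : W ⊆ Ico a (2 * a) := by
    intro n hn
    obtain ⟨p, hp, hn⟩ := mem_biUnion.1 hn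
    rw [pmb_mem (hDp p hp)] at hn
    have h1 := hlow p hp
    have h2 := (hPp p hp).2.1
    have h3 := (hPp p hp).1.two_le
    rw [mem_Ico]
    omega
  have hWc : W.card = P.card * (D - 1) := by
    rw [hW, card_biUnion]
    · rw [sum_congr rfl fun p hp => pmb_card (hDp p hp), sum_const, smul_eq_mul]
    · intro p hp q hq hpq
      show Disjoint (blk D p) (blk D q)
      rw [disjoint_left]
      intro n hn hn'
      rw [pmb_mem (hDp p hp)] at hn
      rw [pmb_mem (hDp q hq)] at hn'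
      rcases Nat.lt_or_gt_of_ne hpq with h | h
      · have := hsep p hp q hq h
        omega
      · have := hsep q hq p hp h
        omega
  have hcI : (Ico a (2 * a)).card = a := by
    rw [Nat.card_Ico]
    omega
  refine ⟨?_, ?_⟩
  · rw [← hWc, ← hcI]
    exact card_le_card hWs
  · have h1 : ((Ico a (2 * a)).powerset.filter fun U => Dw a (fs U)).card ≤
        (Ico a (2 * a) \ W).powerset.card := by
      refine card_le_card_of_injOn (fun U : Finset ℕ => U \ W) ?_ ?_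
      · intro U hU
        obtain ⟨h2, -⟩ := mem_filter.1 (mem_coe.1 hU)
        exact mem_coe.2 (mem_powerset.2 (sdiff_subset_sdiff (mem_powerset.1 h2) le_rfl))
      · intro A hA B hB heq
        obtain ⟨-, hA2⟩ := mem_filter.1 (mem_coe.1 hA)
        obtain ⟨-, hB2⟩ := mem_filter.1 (mem_coe.1 hB)
        have heq' : A \ W = B \ W := heq
        have hout : ∀ n, n ∉ W → (n ∈ A ↔ n ∈ B) := by
          intro n hn
          constructor
          · intro h2
            have h3 : n ∈ A \ W := mem_sdiff.2 ⟨h2, hn⟩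
            rw [heq'] at h3
            exact (mem_sdiff.1 h3).1
          · intro h2
            have h3 : n ∈ B \ W := mem_sdiff.2 ⟨h2, hn⟩
            rw [← heq'] at h3
            exact (mem_sdiff.1 h3).1
        have hin : ∀ p, p ∈ P → ∀ n ∈ blk D p, (n ∈ A ↔ n ∈ B) := by
          intro p
          induction p using Nat.strong_induction_on with
          | _ p ih =>
            intro hp
            refine pmb_det (hPp p hp).1 (hPp p hp).2.1 (hPp p hp).2.2 (hDp p hp) (hcol p hp) hA2 hB2 ?_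
            intro n hn hnb
            by_cases hnW : n ∈ W
            · obtain ⟨q, hq, hnq⟩ := mem_biUnion.1 hnW
              rcases lt_trichotomy q p with h | h | h
              · exact ih q h hq n hnq
              · rw [h] at hnq
                exact absurd hnq hnb
              · exfalso
                have h2 := hsep p hp q hq h
                rw [pmb_mem (hDp q hq)] at hnq
                omega
            · exact hout n hnW
        ext n
        by_cases hnW : n ∈ W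
        · obtain ⟨q, hq, hnq⟩ := mem_biUnion.1 hnW
          exact hin q hq n hnq
        · exact hout n hnW
    rw [card_powerset, card_sdiff_of_subset hWs, hcI, hWc] at h1
    exact h1

/-- the number of primes with a collision -/
theorem pmb_bad (a D : ℕ) :
    ((hp a).filter fun p : ℕ => ∃ U V : Finset ℕ, U ⊆ Icc 2 D ∧ V ⊆ Icc 2 D ∧ U ≠ V ∧
      ((p : ℤ) ∣ H46.PF.MM D U - H46.PF.MM D V)).card ≤ 4 ^ D * (D * (D + 1)) := by
  set I := (Icc 2 D).powerset ×ˢ (Icc 2 D).powerset with hI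
  set f : Finset ℕ × Finset ℕ → Finset ℕ := fun w => if w.1 = w.2 then ∅ else
    (hp a).filter fun p : ℕ => (p : ℤ) ∣ H46.PF.MM D w.1 - H46.PF.MM D w.2 with hf
  have h1 : ((hp a).filter fun p : ℕ => ∃ U V : Finset ℕ, U ⊆ Icc 2 D ∧ V ⊆ Icc 2 D ∧ U ≠ V ∧
      ((p : ℤ) ∣ H46.PF.MM D U - H46.PF.MM D V)) ⊆ I.biUnion f := by
    intro p hp
    obtain ⟨h2, U, V, hU, hV, hne, hd⟩ := mem_filter.1 hp
    refine mem_biUnion.2 ⟨(U, V), mem_product.2 ⟨mem_powerset.2 hU, mem_powerset.2 hV⟩, ?_⟩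
    rw [hf]
    show p ∈ (if U = V then ∅ else _)
    rw [if_neg hne]
    exact mem_filter.2 ⟨h2, hd⟩
  have h2 : ∀ w ∈ I, (f w).card ≤ D * (D + 1) := by
    rintro ⟨U, V⟩ hw
    obtain ⟨hU, hV⟩ := mem_product.1 hw
    have hU' : U ⊆ Icc 2 D := mem_powerset.1 hU
    have hV' : V ⊆ Icc 2 D := mem_powerset.1 hV
    show (if U = V then (∅ : Finset ℕ) else _).card ≤ _
    by_cases hUV : U = V
    · rw [if_pos hUV, card_empty]
      exact Nat.zero_le _
    rw [if_neg hUV]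
    set S := (hp a).filter fun p : ℕ => (p : ℤ) ∣ H46.PF.MM D U - H46.PF.MM D V with hS
    have hz := H46.PF.MM_ne hU' hV' hUV
    have hle := H46.PF.MM_le hU' hV'
    have hSp : ∀ q ∈ S, q.Prime := fun q hq => by
      have h3 := (mem_filter.1 hq).1
      unfold Pool.Agent.H18.PM.hp at h3
      exact (mem_filter.1 h3).2.1
    have hdvd : ∏ q ∈ S, q ∣ (H46.PF.MM D U - H46.PF.MM D V).natAbs := by
      refine Finset.prod_primes_dvd _ (fun q hq => (hSp q hq).prime) (fun q hq => ?_)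
      exact Int.natCast_dvd.mp (mem_filter.mp hq).2
    have h3 : ∏ q ∈ S, q ≤ (H46.PF.MM D U - H46.PF.MM D V).natAbs :=
      Nat.le_of_dvd (Int.natAbs_pos.mpr hz) hdvd
    have h4 : (H46.PF.MM D U - H46.PF.MM D V).natAbs ≤ D * D.factorial := by
      have : ((H46.PF.MM D U - H46.PF.MM D V).natAbs : ℤ) ≤ ((D * D.factorial : ℕ) : ℤ) := by
        rw [Int.natCast_natAbs]
        exact hle
      exact_mod_cast this
    have h5 : 2 ^ S.card ≤ ∏ q ∈ S, q := by
      rw [← prod_const]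
      exact prod_le_prod' (fun q hq => (hSp q hq).two_le)
    have h6 : D * D.factorial ≤ 2 ^ (D * (D + 1)) := by
      have h7 : D ≤ 2 ^ D := Nat.lt_two_pow_self.le
      calc D * D.factorial ≤ D * D ^ D := Nat.mul_le_mul_left _ (Nat.factorial_le_pow D)
        _ = D ^ (D + 1) := by ring
        _ ≤ (2 ^ D) ^ (D + 1) := Nat.pow_le_pow_left h7 _
        _ = 2 ^ (D * (D + 1)) := by rw [pow_mul]
    have h7 : 2 ^ S.card ≤ 2 ^ (D * (D + 1)) := by omega
    exact (Nat.pow_le_pow_iff_right (by norm_num)).1 h7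
  have h3 : I.card ≤ 4 ^ D := by
    rw [hI, card_product, card_powerset, Nat.card_Icc]
    have h4 : (2 : ℕ) ^ (D + 1 - 2) ≤ 2 ^ D := Nat.pow_le_pow_right (by norm_num) (by omega)
    calc 2 ^ (D + 1 - 2) * 2 ^ (D + 1 - 2) ≤ 2 ^ D * 2 ^ D := Nat.mul_le_mul h4 h4
      _ = 4 ^ D := by
        rw [← mul_pow]
        norm_num
  calc _ ≤ (I.biUnion f).card := card_le_card h1
    _ ≤ ∑ w ∈ I, (f w).card := card_biUnion_le
    _ ≤ ∑ _w ∈ I, D * (D + 1) := sum_le_sum h2
    _ = I.card * (D * (D + 1)) := by rw [sum_const, smul_eq_mul]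
    _ ≤ 4 ^ D * (D * (D + 1)) := Nat.mul_le_mul_right _ h3

end Pool.Agent.H18.PM
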