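import Pool.Agent.H18.PM.Stm

/-!
# MP_b4eed3_nt, project PM: Chebyshev's lower bound for the primes in `(a / 2, a]`
-/

set_option autoImplicit false

namespace Pool.Agent.H18.PM

open Finset Classical

/-- the primes in `(n, 2 * n]` -/
def chS (n : ℕ) : Finset ℕ := (range (2 * n + 1)).filter fun p => p.Prime ∧ n < p

theorem ch_small (n : ℕ) (hn : 2 < n) :
    ∏ x ∈ Finset.range (2 * n / 3 + 1), x ^ n.centralBinom.factorization x ≤
      (2 * n) ^ Nat.sqrt (2 * n) * 4 ^ (2 * n / 3) := by
  have n_pos : 0 < n := (Nat.zero_le _).trans_lt hn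
  have n2_pos : 1 ≤ 2 * n := mul_pos (zero_lt_two' ℕ) n_pos
  let S := {p ∈ Finset.range (2 * n / 3 + 1) | Nat.Prime p}
  let f x := x ^ n.centralBinom.factorization x
  have : ∏ x ∈ S, f x = ∏ x ∈ Finset.range (2 * n / 3 + 1), f x := by
    refine Finset.prod_filter_of_ne fun p _ h => ?_
    contrapose h; dsimp only [f]
    rw [Nat.factorization_eq_zero_of_not_prime n.centralBinom h, _root_.pow_zero]
  change ∏ x ∈ Finset.range (2 * n / 3 + 1), f x ≤ _
  rw [← this, ← Finset.prod_filter_mul_prod_filter_not S (· ≤ Nat.sqrt (2 * n))]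
  apply mul_le_mul'
  · refine (Finset.prod_le_prod' fun p _ => (?_ : f p ≤ 2 * n)).trans ?_
    · exact Nat.pow_factorization_choose_le (mul_pos two_pos n_pos)
    have : (Finset.Icc 1 (Nat.sqrt (2 * n))).card = Nat.sqrt (2 * n) := by
      rw [Nat.card_Icc, Nat.add_sub_cancel]
    rw [Finset.prod_const]
    refine pow_right_mono₀ n2_pos ((Finset.card_le_card fun x hx => ?_).trans this.le)
    obtain ⟨h1, h2⟩ := Finset.mem_filter.1 hx
    exact Finset.mem_Icc.mpr ⟨(Finset.mem_filter.1 h1).2.one_lt.le, h2⟩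
  · refine le_trans ?_ (primorial_le_four_pow (2 * n / 3))
    refine (Finset.prod_le_prod' fun p hp => (?_ : f p ≤ p)).trans ?_
    · obtain ⟨h1, h2⟩ := Finset.mem_filter.1 hp
      refine (pow_right_mono₀ (Finset.mem_filter.1 h1).2.one_lt.le ?_).trans (pow_one p).le
      exact Nat.factorization_choose_le_one (Nat.sqrt_lt'.mp <| not_le.1 h2)
    refine Finset.prod_le_prod_of_subset_of_one_le' (Finset.filter_subset _ _) ?_
    exact fun p hp _ => (Finset.mem_filter.1 hp).2.one_lt.le

theorem ch_large (n : ℕ) (hn : 2 < n) :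
    n.centralBinom ≤
      (∏ x ∈ Finset.range (2 * n / 3 + 1), x ^ n.centralBinom.factorization x) *
        (2 * n) ^ (chS n).card := by
  have n_pos : 0 < n := (Nat.zero_le _).trans_lt hn
  have h1 : (∏ p ∈ Finset.range (2 * n + 1), p ^ n.centralBinom.factorization p) =
      (∏ p ∈ Finset.range (2 * n / 3 + 1), p ^ n.centralBinom.factorization p) *
        ∏ p ∈ chS n, p ^ n.centralBinom.factorization p := by
    rw [← Finset.prod_union]
    · symm
      apply Finset.prod_subset
      · intro x hx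
        rw [Finset.mem_union, Finset.mem_range] at hx
        rw [Finset.mem_range]
        rcases hx with hx | hx
        · have := Nat.div_le_self (2 * n) 3
          omega
        · exact Finset.mem_range.1 (Finset.mem_filter.1 hx).1
      · intro x hx h2x
        rw [Finset.mem_union, not_or] at h2x
        obtain ⟨h2, h3⟩ := h2x
        rw [Finset.mem_range] at h2 hx
        by_cases hp : x.Prime
        · have hxn : x ≤ n := by
            by_contra hc
            exact h3 (Finset.mem_filter.2 ⟨Finset.mem_range.2 hx, hp, by omega⟩)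
          have h4 : 2 * n < 3 * x := by omega
          rw [Nat.factorization_centralBinom_of_two_mul_self_lt_three_mul hn hxn h4, pow_zero]
        · rw [Nat.factorization_eq_zero_of_not_prime n.centralBinom hp, pow_zero]
    · rw [Finset.disjoint_left]
      intro x hx hx2
      rw [Finset.mem_range] at hx
      have := (Finset.mem_filter.1 hx2).2.2
      omega
  have h2 : ∏ p ∈ chS n, p ^ n.centralBinom.factorization p ≤ (2 * n) ^ (chS n).card := by
    refine (Finset.prod_le_prod' fun p _ => (?_ :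
      p ^ n.centralBinom.factorization p ≤ 2 * n)).trans ?_
    · exact Nat.pow_factorization_choose_le (mul_pos two_pos n_pos)
    · rw [Finset.prod_const]
  calc n.centralBinom = ∏ p ∈ Finset.range (2 * n + 1), p ^ n.centralBinom.factorization p :=
        (Nat.prod_pow_factorization_centralBinom n).symm
    _ ≤ _ := by rw [h1]; exact Nat.mul_le_mul_left _ h2

theorem ch_log (n : ℕ) (hn : 4 ≤ n) :
    (n : ℝ) * Real.log 4 / 3 - (Real.sqrt (2 * n) + 1) * Real.log (2 * n) ≤
      ((chS n).card : ℝ) * Real.log (2 * n) := by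
  have h1 : 4 ^ n ≤ n * ((2 * n) ^ Nat.sqrt (2 * n) * 4 ^ (2 * n / 3) * (2 * n) ^ (chS n).card) := by
    refine (Nat.four_pow_lt_mul_centralBinom n hn).le.trans ?_
    refine Nat.mul_le_mul_left _ ((ch_large n (by omega)).trans ?_)
    exact Nat.mul_le_mul_right _ (ch_small n (by omega))
  have hn0 : (0 : ℝ) < n := by exact_mod_cast (by omega : 0 < n)
  have h2n : (0 : ℝ) < 2 * (n : ℝ) := by positivity
  have h2n1 : (1 : ℝ) ≤ 2 * (n : ℝ) := by
    have : (4 : ℝ) ≤ n := by exact_mod_cast hn
    linarith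
  have h2 : ((4 : ℝ) ^ n) ≤ (n : ℝ) * ((2 * n) ^ Nat.sqrt (2 * n) * 4 ^ (2 * n / 3) *
      (2 * n) ^ (chS n).card) := by exact_mod_cast h1
  have h3 := Real.log_le_log (by positivity) h2
  rw [Real.log_pow, Real.log_mul (by positivity) (by positivity), Real.log_mul (by positivity)
    (by positivity), Real.log_mul (by positivity) (by positivity), Real.log_pow, Real.log_pow,
    Real.log_pow] at h3
  have hl4 : 0 < Real.log 4 := Real.log_pos (by norm_num)
  have hl2n : 0 ≤ Real.log (2 * n) := Real.log_nonneg h2n1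
  have h4 : ((2 * n / 3 : ℕ) : ℝ) ≤ 2 * n / 3 := by
    have := Nat.cast_div_le (α := ℝ) (m := 2 * n) (n := 3)
    push_cast at this
    exact this
  have h5 : ((Nat.sqrt (2 * n) : ℕ) : ℝ) ≤ Real.sqrt (2 * n) := by
    have := Real.nat_sqrt_le_real_sqrt (a := 2 * n)
    push_cast at this
    exact this
  have h6 : Real.log n ≤ Real.log (2 * n) := Real.log_le_log hn0 (by linarith)
  have h7 := mul_le_mul_of_nonneg_right h4 hl4.le
  have h8 := mul_le_mul_of_nonneg_right h5 hl2n
  nlinarith

theorem ch_grow (x : ℝ) (hx : (192 : ℝ) ^ 4 ≤ x) :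
    (Real.sqrt x + 1) * Real.log x ≤ x / 24 := by
  have hx0 : (0 : ℝ) < x := lt_of_lt_of_le (by norm_num) hx
  set y : ℝ := x ^ (1 / 4 : ℝ) with hy
  have hy0 : 0 < y := Real.rpow_pos_of_pos hx0 _
  have hy4 : y ^ 4 = x := by
    rw [hy, ← Real.rpow_natCast, ← Real.rpow_mul hx0.le]
    norm_num
  have hy192 : 192 ≤ y := by
    by_contra hc
    push Not at hc
    have : y ^ 4 < 192 ^ 4 := pow_lt_pow_left₀ hc hy0.le (by norm_num)
    rw [hy4] at this
    linarith
  have hlog : Real.log x ≤ 4 * y := by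
    have := Real.log_le_rpow_div hx0.le (show (0 : ℝ) < 1 / 4 by norm_num)
    rw [← hy] at this
    linarith
  have hsq : Real.sqrt x = y ^ 2 := by
    rw [← hy4, show y ^ 4 = (y ^ 2) ^ 2 by ring, Real.sqrt_sq (by positivity)]
  have hlog0 : 0 ≤ Real.log x := Real.log_nonneg (le_trans (by norm_num) hx)
  rw [hsq]
  have h1 : (y ^ 2 + 1) * Real.log x ≤ (y ^ 2 + 1) * (4 * y) :=
    mul_le_mul_of_nonneg_left hlog (by positivity)
  have h2 : (y ^ 2 + 1) * (4 * y) ≤ y ^ 4 / 24 := by
    have h3 : y ^ 2 + 1 ≤ 2 * y ^ 2 := by nlinarith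
    have h4 : (y ^ 2 + 1) * (4 * y) ≤ (2 * y ^ 2) * (4 * y) :=
      mul_le_mul_of_nonneg_right h3 (by positivity)
    have h5 : (2 * y ^ 2) * (4 * y) = 8 * y ^ 3 := by ring
    have h6 : 192 * y ^ 3 ≤ y ^ 4 := by
      have : 192 * y ^ 3 ≤ y * y ^ 3 := mul_le_mul_of_nonneg_right hy192 (by positivity)
      calc 192 * y ^ 3 ≤ y * y ^ 3 := this
        _ = y ^ 4 := by ring
    linarith
  rw [hy4] at h2
  linarith

theorem cheb : SCheb := by
  refine ⟨1 / 12, by norm_num, 192 ^ 4 + 8, fun a ha => ?_⟩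
  set n : ℕ := a / 2 with hn
  have hn4 : 4 ≤ n := by omega
  have h192 : 192 ^ 4 ≤ 2 * n := by omega
  have hna : 2 * n ≤ a := by omega
  have ha3 : a ≤ 3 * n := by omega
  have hsub : chS n ⊆ hp a := by
    intro p hp
    obtain ⟨h1, h2, h3⟩ := Finset.mem_filter.1 hp
    rw [Finset.mem_range] at h1
    exact Finset.mem_filter.2 ⟨Finset.mem_range.2 (by omega), h2, by omega⟩
  have hcard : ((chS n).card : ℝ) ≤ ((hp a).card : ℝ) := by
    exact_mod_cast Finset.card_le_card hsub
  refine le_trans ?_ hcard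
  have h1 := ch_log n hn4
  have h2 : (Real.sqrt (2 * n) + 1) * Real.log (2 * n) ≤ (2 * n : ℝ) / 24 :=
    ch_grow _ (by exact_mod_cast h192)
  have hl4 : (1 : ℝ) ≤ Real.log 4 := by
    have h3 : Real.log 4 = 2 * Real.log 2 := by
      rw [show (4 : ℝ) = 2 ^ 2 by norm_num, Real.log_pow]
      norm_num
    have := Real.log_two_gt_d9
    rw [h3]
    linarith
  have hn0 : (0 : ℝ) < n := by exact_mod_cast (by omega : 0 < n)
  have h3 : (n : ℝ) / 4 ≤ ((chS n).card : ℝ) * Real.log (2 * n) := by nlinarith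
  have h2na : ((2 : ℝ) * n) ≤ a := by exact_mod_cast hna
  have ha3' : (a : ℝ) ≤ 3 * n := by exact_mod_cast ha3
  have h4n : (4 : ℝ) ≤ n := by exact_mod_cast hn4
  have hlog : Real.log (2 * n) ≤ Real.log a := Real.log_le_log (by positivity) h2na
  have hloga : 0 < Real.log a := Real.log_pos (by linarith)
  rw [div_le_iff₀ hloga]
  have h4 : ((chS n).card : ℝ) * Real.log (2 * n) ≤ ((chS n).card : ℝ) * Real.log a :=
    mul_le_mul_of_nonneg_left hlog (by positivity)
  linarith

end Pool.Agent.H18.PM
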