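import Mathlib

/-!
# MP_b4eed3_nt, project PM: powerful sums of distinct factorials whose smallest index is large
-/

set_option autoImplicit false

namespace Pool.Agent.H18.PM

open Finset Classical MeasureTheory ProbabilityTheory

/-- every prime divisor divides twice; `0` has this property -/
def Pw (z : ℕ) : Prop := ∀ p : ℕ, p.Prime → p ∣ z → p ^ 2 ∣ z

/-- the sum of the factorials of the elements of `S` -/
def fs (S : Finset ℕ) : ℕ := ∑ n ∈ S, n.factorial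

/-- divisible by the squares of all primes `≤ a` -/
def Dv (a z : ℕ) : Prop := ∀ p : ℕ, p.Prime → p ≤ a → p ^ 2 ∣ z

/-- the primes in `(a / 2, a]` -/
def hp (a : ℕ) : Finset ℕ := (range (a + 1)).filter fun p => p.Prime ∧ a < 2 * p

/-- M1: Chebyshev -/
def SCheb : Prop := ∃ c : ℝ, 0 < c ∧ ∃ a₀ : ℕ, ∀ a : ℕ, a₀ ≤ a →
  c * a / Real.log a ≤ ((hp a).card : ℝ)

/-- M2: primes close to the next prime -/
def SPair : Prop := ∃ C : ℝ, 0 ≤ C ∧ ∀ a h : ℕ, 2 ≤ a → 1 ≤ h →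
  (((range (a + 1)).filter fun p => p.Prime ∧ ∃ q : ℕ, q.Prime ∧ p < q ∧ q ≤ p + h).card : ℝ) ≤
    C * h * (a / Real.log a ^ 2 + Real.sqrt a)

/-- M3: uniqueness -/
def SUni : Prop := ∃ c : ℝ, 0 < c ∧ ∃ a₀ : ℕ, ∀ a : ℕ, a₀ ≤ a → ∀ S S' : Finset ℕ,
  (∀ n ∈ S, a ≤ n) → (∀ n ∈ S', a ≤ n) → Dv a (fs S) → Dv a (fs S') → S ≠ S' →
  ∃ n, (n ∈ S ∧ n ∉ S' ∨ n ∈ S' ∧ n ∉ S) ∧ (a : ℝ) + c * a / Real.log a ≤ n

/-- M3: counting consequence -/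
def SCnt : Prop := ∃ c : ℝ, 0 < c ∧ ∃ a₀ : ℕ, ∀ a : ℕ, a₀ ≤ a → ∀ N : ℕ, a ≤ N →
  (((Icc a N).powerset.filter fun S => S.Nonempty ∧ Dv a (fs S)).card : ℝ) ≤
      2 ^ (N + 1 - a) * (2 : ℝ) ^ (-(c * a / Real.log a)) ∧
  (2 * a ≤ N + 1 → (((Icc a N).powerset.filter fun S => Dv a (fs S)).card : ℝ) ≤
      2 ^ (N + 1 - a) * (2 : ℝ) ^ (-(c * a / Real.log a)))

/-- M3: windows of a fixed set -/
def SWin : Prop := ∃ C : ℝ, ∀ R : Set ℕ,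
  (∀ N : ℕ, 2 ≤ N → (((Icc 1 N).filter fun a => a ∈ R ∧
    Pw (fs ((Icc a N).filter fun n => n ∈ R))).card : ℝ) ≤ C * Real.log N ^ 2) ∧
  (∀ X : ℕ, 2 ≤ X → (((Icc 1 X).filter fun a => a ∈ R ∧ ∃ N : ℕ, 2 * a ≤ N + 1 ∧
    Pw (fs ((Icc a N).filter fun n => n ∈ R))).card : ℝ) ≤ C * Real.log X ^ 2)

/-- M4: exponential rarity -/
def SRare : Prop := ∃ c : ℝ, 0 < c ∧ ∃ a₀ : ℕ, ∀ a : ℕ, a₀ ≤ a →
  (((Ico a (2 * a)).powerset.filter fun U => Dv a (fs U)).card : ℝ) ≤ (2 : ℝ) ^ ((1 - c) * a)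

/-- M5: windows of a random set -/
def SAs : Prop := ∀ (Ω : Type) [MeasurableSpace Ω] (P : Measure Ω) [IsProbabilityMeasure P]
  (ξ : ℕ → Ω → Bool), (∀ n, Measurable (ξ n)) → iIndepFun ξ P →
  (∀ n, P (ξ n ⁻¹' {true}) = 1 / 2) →
  ∀ᵐ ω ∂P, {w : ℕ × ℕ | 1 ≤ w.1 ∧ ((Icc w.1 w.2).filter fun n => ξ n ω = true).Nonempty ∧
    Pw (fs ((Icc w.1 w.2).filter fun n => ξ n ω = true))}.Finite

end Pool.Agent.H18.PM
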