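import Pool.Agent.H18.PM.Stm

/-!
# MP_b4eed3_nt, project PM: statements with the primes in `(a / 2, a]` only
-/

set_option autoImplicit false

namespace Pool.Agent.H18.PM

open Finset Classical

/-- divisible by the squares of all primes in `(a / 2, a]` -/
def Dw (a z : ℕ) : Prop := ∀ p : ℕ, p.Prime → a < 2 * p → p ≤ a → p ^ 2 ∣ z

/-- no prime in `(a / 2, a]` divides `z` exactly once -/
def Nx (a z : ℕ) : Prop := ∀ p : ℕ, p.Prime → a < 2 * p → p ≤ a → p ∣ z → p ^ 2 ∣ z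

/-- uniqueness -/
def SUniW : Prop := ∃ c : ℝ, 0 < c ∧ ∃ a₀ : ℕ, ∀ a : ℕ, a₀ ≤ a → ∀ S S' : Finset ℕ,
  (∀ n ∈ S, a ≤ n) → (∀ n ∈ S', a ≤ n) → Dw a (fs S) → Dw a (fs S') → S ≠ S' →
  ∃ n, (n ∈ S ∧ n ∉ S' ∨ n ∈ S' ∧ n ∉ S) ∧ (a : ℝ) + c * a / Real.log a ≤ n

/-- windows of a fixed set -/
def SWinW : Prop := ∃ C : ℝ, ∀ R : Set ℕ,
  (∀ N : ℕ, 2 ≤ N → (((Icc 1 N).filter fun a => a ∈ R ∧
    Nx a (fs ((Icc a N).filter fun n => n ∈ R))).card : ℝ) ≤ C * Real.log N ^ 2) ∧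
  (∀ X : ℕ, 2 ≤ X → (((Icc 1 X).filter fun a => a ∈ R ∧ ∃ N : ℕ, 2 * a ≤ N + 1 ∧
    Nx a (fs ((Icc a N).filter fun n => n ∈ R))).card : ℝ) ≤ C * Real.log X ^ 2)

/-- exponential rarity -/
def SRareW : Prop := ∃ c : ℝ, 0 < c ∧ ∃ a₀ : ℕ, ∀ a : ℕ, a₀ ≤ a →
  (((Ico a (2 * a)).powerset.filter fun U => Dw a (fs U)).card : ℝ) ≤ (2 : ℝ) ^ ((1 - c) * a)

theorem Dv.dw {a z : ℕ} (h : Dv a z) : Dw a z := fun p hp _ hpa => h p hp hpa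

theorem Nx.of_pw {z : ℕ} (h : Pw z) (a : ℕ) : Nx a z := fun p hp _ _ hd => h p hp hd

theorem Nx.dw {a : ℕ} {S : Finset ℕ} (hS : ∀ n ∈ S, a ≤ n) (h : Nx a (fs S)) :
    Dw a (fs S) := by
  intro p hp hp2 hpa
  refine h p hp hp2 hpa ?_
  unfold fs
  exact dvd_sum fun n hn => (hp.dvd_factorial).2 (hpa.trans (hS n hn))

theorem SUniW.suni (h : SUniW) : SUni := by
  obtain ⟨c, hc, a₀, h⟩ := h
  exact ⟨c, hc, a₀, fun a ha S S' hS hS' hd hd' => h a ha S S' hS hS' hd.dw hd'.dw⟩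

end Pool.Agent.H18.PM
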