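import Pool.Agent.H18.PM.StmW

/-!
# MP_b4eed3_nt, project PM: counting and windows of a fixed set
-/

set_option autoImplicit false

namespace Pool.Agent.H18.PM

open Finset Classical

theorem pmw_dv {a : ℕ} {S : Finset ℕ} (hS : ∀ n ∈ S, a ≤ n) (h : Pw (fs S)) : Dv a (fs S) := by
  intro p hp hpa
  refine h p hp ?_
  unfold fs
  exact dvd_sum fun n hn => (hp.dvd_factorial).2 (hpa.trans (hS n hn))

theorem pmw_big {p n : ℕ} (hp : 0 < p) (h : 2 * p ≤ n) : p ^ 2 ∣ n.factorial := by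
  refine dvd_trans ?_ (Nat.factorial_dvd_factorial h)
  have h2 : p.factorial * p.factorial ∣ (p + p).factorial :=
    Nat.factorial_mul_factorial_dvd_factorial_add p p
  rw [two_mul]
  refine dvd_trans ?_ h2
  rw [pow_two]
  exact mul_dvd_mul (Nat.dvd_factorial hp le_rfl) (Nat.dvd_factorial hp le_rfl)

/-- only the indices `< 2 a` matter -/
theorem pmw_cut {a b : ℕ} {S : Finset ℕ} (hab : a ≤ b) (h : Dv a (fs S)) :
    Dv a (fs (S.filter fun n => n < 2 * b)) := by
  intro p hp hpa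
  have h1 : fs S = fs (S.filter fun n => n < 2 * b) + fs (S.filter fun n => ¬ n < 2 * b) := by
    unfold fs
    exact (sum_filter_add_sum_filter_not S _ _).symm
  have h2 : p ^ 2 ∣ fs (S.filter fun n => ¬ n < 2 * b) := by
    unfold fs
    refine dvd_sum fun n hn => pmw_big hp.pos ?_
    have h3 := (mem_filter.1 hn).2
    omega
  have h3 := h p hp hpa
  rw [h1] at h3
  exact (Nat.dvd_add_left h2).1 h3

/-- only the indices `< 2 a` matter -/
theorem pmw_cutW {a : ℕ} {S : Finset ℕ} (h : Dw a (fs S)) :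
    Dw a (fs (S.filter fun n => n < 2 * a)) := by
  intro p hp hp2 hpa
  have h1 : fs S = fs (S.filter fun n => n < 2 * a) + fs (S.filter fun n => ¬ n < 2 * a) := by
    unfold fs
    exact (sum_filter_add_sum_filter_not S _ _).symm
  have h2 : p ^ 2 ∣ fs (S.filter fun n => ¬ n < 2 * a) := by
    unfold fs
    refine dvd_sum fun n hn => pmw_big hp.pos ?_
    have h3 := (mem_filter.1 hn).2
    omega
  have h3 := h p hp hp2 hpa
  rw [h1] at h3
  exact (Nat.dvd_add_left h2).1 h3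

theorem pmw_nx {a b : ℕ} {S : Finset ℕ} (hab : a ≤ b) (hS : ∀ n ∈ S, b ≤ n)
    (h : Nx b (fs S)) : Dw a (fs S) := by
  intro p hp _ hpa
  by_cases h1 : 2 * p ≤ b
  · unfold fs
    exact dvd_sum fun n hn => pmw_big hp.pos (h1.trans (hS n hn))
  · refine h p hp (not_le.1 h1) (hpa.trans hab) ?_
    unfold fs
    exact dvd_sum fun n hn => (hp.dvd_factorial).2 ((hpa.trans hab).trans (hS n hn))

/-- large `a`: the gap is at most `a` -/
theorem pmw_gap {c : ℝ} : ∃ a₀ : ℕ, ∀ a : ℕ, a₀ ≤ a → 3 ≤ a ∧ c ≤ Real.log a ∧ 1 ≤ Real.log a ∧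
    c * a / Real.log a ≤ a := by
  obtain ⟨a₀, h⟩ := exists_nat_ge (Real.exp (max c 1))
  refine ⟨max a₀ 3, fun a ha => ?_⟩
  have h1 : a₀ ≤ a := (le_max_left _ _).trans ha
  have h2 : 3 ≤ a := (le_max_right _ _).trans ha
  have h3 : Real.exp (max c 1) ≤ a := h.trans (by exact_mod_cast h1)
  have h4 : max c 1 ≤ Real.log a := by
    rw [← Real.log_exp (max c 1)]
    exact Real.log_le_log (Real.exp_pos _) h3
  have h5 : 1 ≤ Real.log a := (le_max_right _ _).trans h4
  have h6 : c ≤ Real.log a := (le_max_left _ _).trans h4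
  refine ⟨h2, h6, h5, ?_⟩
  rw [div_le_iff₀ (by linarith), mul_comm (a : ℝ)]
  exact mul_le_mul_of_nonneg_right h6 (Nat.cast_nonneg a)

/-- M3: counting -/
theorem cnt (h : SUni) : SCnt := by
  obtain ⟨c, hc, a₁, h1⟩ := h
  obtain ⟨a₂, h2⟩ := pmw_gap (c := c)
  refine ⟨c, hc, max a₁ a₂, fun a ha N haN => ?_⟩
  have ha1 : a₁ ≤ a := (le_max_left _ _).trans ha
  have ha2 : a₂ ≤ a := (le_max_right _ _).trans ha
  obtain ⟨ha3, hca, hla, hgap⟩ := h2 a ha2
  set β : ℝ := (a : ℝ) + c * a / Real.log a with hβ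
  have hx0 : 0 ≤ c * a / Real.log a := by positivity
  -- the sets are determined by their elements `≥ β`
  have hinj : Set.InjOn (fun S : Finset ℕ => S.filter fun n : ℕ => β ≤ (n : ℝ))
      {S : Finset ℕ | S ⊆ Icc a N ∧ Dv a (fs S)} := by
    intro S hS S' hS' heq
    by_contra hne
    obtain ⟨n, hn, hβn⟩ := h1 a ha1 S S' (fun n hn => (mem_Icc.1 (hS.1 hn)).1)
      (fun n hn => (mem_Icc.1 (hS'.1 hn)).1) hS.2 hS'.2 hne
    have h3 : n ∈ S.filter (fun n : ℕ => β ≤ (n : ℝ)) ↔ n ∈ S'.filter fun n : ℕ => β ≤ (n : ℝ) := by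
      have heq' : S.filter (fun n : ℕ => β ≤ (n : ℝ)) = S'.filter fun n : ℕ => β ≤ (n : ℝ) := heq
      rw [heq']
    rw [mem_filter, mem_filter] at h3
    rcases hn with ⟨h4, h5⟩ | ⟨h4, h5⟩
    · exact h5 (h3.1 ⟨h4, hβn⟩).1
    · exact h5 (h3.2 ⟨h4, hβn⟩).1
  have hcard : ⌈β⌉₊ ≤ N + 1 → (((Icc a N).powerset.filter fun S => Dv a (fs S)).card : ℝ) ≤
      2 ^ (N + 1 - a) * (2 : ℝ) ^ (-(c * a / Real.log a)) := by
    intro hN
    have h3 : ((Icc a N).powerset.filter fun S => Dv a (fs S)).card ≤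
        (Icc ⌈β⌉₊ N).powerset.card := by
      refine card_le_card_of_injOn (fun S : Finset ℕ => S.filter fun n : ℕ => β ≤ (n : ℝ)) ?_ ?_
      · intro S hS
        have hS' := mem_filter.1 (mem_coe.1 hS)
        refine mem_coe.2 (mem_powerset.2 fun n hn => ?_)
        rw [mem_filter] at hn
        have h4 := mem_Icc.1 (mem_powerset.1 hS'.1 hn.1)
        exact mem_Icc.2 ⟨Nat.ceil_le.2 hn.2, h4.2⟩
      · intro S hS S' hS' heq
        have h4 := mem_filter.1 (mem_coe.1 hS)
        have h5 := mem_filter.1 (mem_coe.1 hS')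
        exact hinj ⟨mem_powerset.1 h4.1, h4.2⟩ ⟨mem_powerset.1 h5.1, h5.2⟩ heq
    rw [card_powerset, Nat.card_Icc] at h3
    have h4 : (((Icc a N).powerset.filter fun S => Dv a (fs S)).card : ℝ) ≤
        2 ^ (N + 1 - ⌈β⌉₊) := by exact_mod_cast h3
    refine h4.trans ?_
    rw [← Real.rpow_natCast, ← Real.rpow_natCast, ← Real.rpow_add (by norm_num),
      Nat.cast_sub hN, Nat.cast_sub (by omega)]
    refine Real.rpow_le_rpow_of_exponent_le (by norm_num) ?_
    have h5 := Nat.le_ceil β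
    linarith
  constructor
  · by_cases hN : β ≤ N
    · refine le_trans ?_ (hcard (Nat.ceil_le.2 (hN.trans (by push_cast; linarith))))
      have h3 : ((Icc a N).powerset.filter fun S => S.Nonempty ∧ Dv a (fs S)).card ≤
          ((Icc a N).powerset.filter fun S => Dv a (fs S)).card := by
        refine card_le_card fun S hS => ?_
        rw [mem_filter] at hS ⊢
        exact ⟨hS.1, hS.2.2⟩
      exact_mod_cast h3
    · have h3 : ((Icc a N).powerset.filter fun S => S.Nonempty ∧ Dv a (fs S)) = ∅ := by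
        rw [filter_eq_empty_iff]
        rintro S hS ⟨hne, hd⟩
        have hS' := mem_powerset.1 hS
        obtain ⟨n, hn, hβn⟩ := h1 a ha1 S ∅ (fun n hn => (mem_Icc.1 (hS' hn)).1)
          (fun n hn => absurd hn (notMem_empty n)) hd
          (fun p _ _ => by unfold fs; rw [sum_empty]; exact dvd_zero _) hne.ne_empty
        rcases hn with ⟨h4, _⟩ | ⟨h4, _⟩
        · have h5 := (mem_Icc.1 (hS' h4)).2
          have h6 : (n : ℝ) ≤ N := by exact_mod_cast h5
          exact hN (hβn.trans h6)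
        · exact absurd h4 (notMem_empty n)
      rw [h3, card_empty, Nat.cast_zero]
      positivity
  · intro hN
    refine hcard (Nat.ceil_le.2 ?_)
    have h3 : (2 : ℝ) * a ≤ (N : ℝ) + 1 := by exact_mod_cast hN
    push_cast
    linarith

/-! ### sparse sets -/

/-- a set of integers with gaps at least `c a / log a` has at most `C (log N) ^ 2` elements -/
theorem pmw_sparse {c : ℝ} (hc : 0 < c) {a₀ : ℕ} (h0 : ∀ a : ℕ, a₀ ≤ a → 3 ≤ a ∧
    c ≤ Real.log a ∧ 1 ≤ Real.log a ∧ c * a / Real.log a ≤ a) {N : ℕ} (hN : 2 ≤ N)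
    {A : Finset ℕ} (hA : A ⊆ Icc 1 N)
    (hgap : ∀ a ∈ A, ∀ a' ∈ A, a₀ ≤ a → a < a' → (a : ℝ) + c * a / Real.log a ≤ a') :
    (A.card : ℝ) ≤ (1 / c + (a₀ + 1) / Real.log 2 ^ 2) * Real.log N ^ 2 := by
  have hl2 : 0 < Real.log 2 := Real.log_pos (by norm_num)
  have hlN : Real.log 2 ≤ Real.log N := Real.log_le_log (by norm_num) (by exact_mod_cast hN)
  -- split
  have h1 : A.card ≤ a₀ + (A.filter fun a => a₀ ≤ a).card := by
    rw [← card_filter_add_card_filter_not (s := A) (p := fun a => a₀ ≤ a), add_comm]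
    refine Nat.add_le_add_right ?_ _
    calc (A.filter fun a => ¬ a₀ ≤ a).card ≤ (range a₀).card := by
          refine card_le_card fun a ha => ?_
          rw [mem_filter] at ha
          rw [mem_range]
          omega
      _ = a₀ := card_range _
  have h2 : (A.filter fun a => a₀ ≤ a).card ≤ ⌊Real.log N ^ 2 / c⌋₊ + 1 := by
    rw [← card_range (⌊Real.log N ^ 2 / c⌋₊ + 1)]
    refine card_le_card_of_injOn (fun a : ℕ => ⌊Real.log a ^ 2 / c⌋₊) ?_ ?_
    · intro a ha
      obtain ⟨ha1, ha2⟩ := mem_filter.1 (mem_coe.1 ha)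
      obtain ⟨h3, -, h5, -⟩ := h0 a ha2
      refine mem_coe.2 (mem_range.2 (Nat.lt_succ_of_le (Nat.floor_le_floor ?_)))
      refine div_le_div_of_nonneg_right ?_ hc.le
      refine pow_le_pow_left₀ (by linarith) (Real.log_le_log ?_ ?_) 2
      · have : 0 < a := by omega
        exact_mod_cast this
      · exact_mod_cast (mem_Icc.1 (hA ha1)).2
    · have key : ∀ a ∈ A, ∀ a' ∈ A, a₀ ≤ a → a < a' →
          ⌊Real.log a ^ 2 / c⌋₊ < ⌊Real.log a' ^ 2 / c⌋₊ := by
        intro a ha a' ha' haa hlt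
        obtain ⟨h3, h4, h5, h6⟩ := h0 a haa
        have hg := hgap a ha a' ha' haa hlt
        have hapos : (0 : ℝ) < a := by
          have : 0 < a := by omega
          exact_mod_cast this
        have hlpos : 0 < Real.log a := by linarith
        set x : ℝ := c / Real.log a with hx
        have hx0 : 0 < x := div_pos hc hlpos
        have hx1 : x ≤ 1 := by
          rw [hx, div_le_one hlpos]
          exact h4
        have h7 : (a : ℝ) * (1 + x) ≤ a' := by
          have : (a : ℝ) * (1 + x) = a + c * a / Real.log a := by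
            rw [hx]
            field_simp
          rw [this]
          exact hg
        have h8 : Real.log a + 2 * x / 3 ≤ Real.log a' := by
          have h9 : Real.log ((a : ℝ) * (1 + x)) ≤ Real.log a' :=
            Real.log_le_log (by positivity) h7
          rw [Real.log_mul hapos.ne' (by positivity)] at h9
          have h10 := Real.le_log_one_add_of_nonneg hx0.le
          have h11 : 2 * x / 3 ≤ 2 * x / (x + 2) :=
            div_le_div_of_nonneg_left (by positivity) (by positivity) (by linarith)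
          linarith
        have h9 : Real.log a ^ 2 + c ≤ Real.log a' ^ 2 := by
          have h10 : (Real.log a + 2 * x / 3) ^ 2 ≤ Real.log a' ^ 2 :=
            pow_le_pow_left₀ (by positivity) h8 2
          have h11 : Real.log a * x = c := by
            rw [hx]
            field_simp
          have h12 : (Real.log a + 2 * x / 3) ^ 2 =
              Real.log a ^ 2 + 4 / 3 * (Real.log a * x) + (2 * x / 3) ^ 2 := by ring
          rw [h12, h11] at h10
          have h13 : 0 ≤ (2 * x / 3) ^ 2 := sq_nonneg _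
          linarith
        have h10 : Real.log a ^ 2 / c + 1 ≤ Real.log a' ^ 2 / c := by
          rw [div_add_one hc.ne']
          exact div_le_div_of_nonneg_right h9 hc.le
        have h11 : ⌊Real.log a ^ 2 / c⌋₊ + 1 ≤ ⌊Real.log a' ^ 2 / c⌋₊ := by
          rw [← Nat.floor_add_one (by positivity)]
          exact Nat.floor_le_floor h10
        omega
      intro a ha a' ha' heq
      obtain ⟨ha1, ha2⟩ := mem_filter.1 (mem_coe.1 ha)
      obtain ⟨ha1', ha2'⟩ := mem_filter.1 (mem_coe.1 ha')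
      have heq' : ⌊Real.log a ^ 2 / c⌋₊ = ⌊Real.log a' ^ 2 / c⌋₊ := heq
      rcases lt_trichotomy a a' with h3 | h3 | h3
      · have := key a ha1 a' ha1' ha2 h3
        omega
      · exact h3
      · have := key a' ha1' a ha1 ha2' h3
        omega
  have h3 : (A.card : ℝ) ≤ a₀ + (Real.log N ^ 2 / c + 1) := by
    have h4 : (A.card : ℝ) ≤ a₀ + ((⌊Real.log N ^ 2 / c⌋₊ : ℝ) + 1) := by
      exact_mod_cast h1.trans (Nat.add_le_add_left h2 _)
    have h5 := Nat.floor_le (show 0 ≤ Real.log N ^ 2 / c by positivity)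
    linarith
  have h4 : (1 : ℝ) ≤ Real.log N ^ 2 / Real.log 2 ^ 2 := by
    rw [one_le_div (by positivity)]
    exact pow_le_pow_left₀ hl2.le hlN 2
  have h5 : ((a₀ : ℝ) + 1) * 1 ≤ (a₀ + 1) * (Real.log N ^ 2 / Real.log 2 ^ 2) :=
    mul_le_mul_of_nonneg_left h4 (by positivity)
  calc (A.card : ℝ) ≤ Real.log N ^ 2 / c + (a₀ + 1) * 1 := by linarith
    _ ≤ Real.log N ^ 2 / c + (a₀ + 1) * (Real.log N ^ 2 / Real.log 2 ^ 2) := by linarith
    _ = _ := by ring

/-- M3: windows of a fixed set -/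
theorem winW (h : SUniW) : SWinW := by
  obtain ⟨c, hc, a₁, h1⟩ := h
  obtain ⟨a₂, h2⟩ := pmw_gap (c := c)
  set a₀ := max a₁ a₂ with ha₀
  have h0 : ∀ a : ℕ, a₀ ≤ a → 3 ≤ a ∧ c ≤ Real.log a ∧ 1 ≤ Real.log a ∧
      c * a / Real.log a ≤ a := fun a ha => h2 a ((le_max_right _ _).trans ha)
  refine ⟨1 / c + (a₀ + 1) / Real.log 2 ^ 2, fun R => ⟨fun N hN => ?_, fun X hX => ?_⟩⟩
  · refine pmw_sparse hc h0 hN (filter_subset _ _) fun a ha a' ha' haa hlt => ?_
    obtain ⟨ha1, ha2, ha3⟩ := mem_filter.1 ha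
    obtain ⟨ha1', ha2', ha3'⟩ := mem_filter.1 ha'
    set S := (Icc a N).filter fun n => n ∈ R with hS
    set S' := (Icc a' N).filter fun n => n ∈ R with hS'
    have hSa : ∀ n ∈ S, a ≤ n := fun n hn => (mem_Icc.1 (mem_filter.1 hn).1).1
    have hSa' : ∀ n ∈ S', a' ≤ n := fun n hn => (mem_Icc.1 (mem_filter.1 hn).1).1
    have haS : a ∈ S := mem_filter.2 ⟨mem_Icc.2 ⟨le_rfl, (mem_Icc.1 ha1).2⟩, ha2⟩
    have haS' : a ∉ S' := fun h3 => by
      have := hSa' a h3
      omega
    have hne : S ≠ S' := fun h3 => haS' (h3 ▸ haS)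
    obtain ⟨n, hn, hb⟩ := h1 a ((le_max_left _ _).trans haa) S S' hSa
      (fun n hn => hlt.le.trans (hSa' n hn)) (pmw_nx le_rfl hSa ha3)
      (pmw_nx hlt.le hSa' ha3') hne
    have hna : n < a' := by
      by_contra hc2
      rw [not_lt] at hc2
      rcases hn with ⟨h3, h4⟩ | ⟨h3, h4⟩
      · refine h4 (mem_filter.2 ⟨mem_Icc.2 ⟨hc2, ?_⟩, (mem_filter.1 h3).2⟩)
        exact (mem_Icc.1 (mem_filter.1 h3).1).2
      · refine h4 (mem_filter.2 ⟨mem_Icc.2 ⟨hlt.le.trans hc2, ?_⟩, (mem_filter.1 h3).2⟩)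
        exact (mem_Icc.1 (mem_filter.1 h3).1).2
    have h5 : (n : ℝ) ≤ a' := by exact_mod_cast hna.le
    linarith
  · refine pmw_sparse hc h0 hX (filter_subset _ _) fun a ha a' ha' haa hlt => ?_
    obtain ⟨ha1, ha2, N, hN, ha3⟩ := mem_filter.1 ha
    obtain ⟨ha1', ha2', N', hN', ha3'⟩ := mem_filter.1 ha'
    obtain ⟨h3a, -, -, hga⟩ := h0 a haa
    by_cases h2a : 2 * a ≤ a'
    · have h3 : (2 : ℝ) * a ≤ a' := by exact_mod_cast h2a
      linarith
    have hcut : ∀ b N : ℕ, a ≤ b → b < 2 * a → 2 * b ≤ N + 1 →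
        Nx b (fs ((Icc b N).filter fun n => n ∈ R)) →
        Dw a (fs ((Icc b (2 * a - 1)).filter fun n => n ∈ R)) := by
      intro b N hab hb2 hbN hP
      have h3 : Dw a (fs ((Icc b N).filter fun n => n ∈ R)) :=
        pmw_nx hab (fun n hn => (mem_Icc.1 (mem_filter.1 hn).1).1) hP
      have h4 := pmw_cutW h3
      have h5 : ((Icc b N).filter fun n => n ∈ R).filter (fun n => n < 2 * a) =
          (Icc b (2 * a - 1)).filter fun n => n ∈ R := by
        ext n
        rw [mem_filter, mem_filter, mem_filter, mem_Icc, mem_Icc]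
        constructor
        · rintro ⟨⟨⟨h6, h7⟩, h8⟩, h9⟩
          exact ⟨⟨h6, by omega⟩, h8⟩
        · rintro ⟨⟨h6, h7⟩, h8⟩
          exact ⟨⟨⟨h6, by omega⟩, h8⟩, by omega⟩
      rw [h5] at h4
      exact h4
    set S := (Icc a (2 * a - 1)).filter fun n => n ∈ R with hS
    set S' := (Icc a' (2 * a - 1)).filter fun n => n ∈ R with hS'
    have hSa : ∀ n ∈ S, a ≤ n := fun n hn => (mem_Icc.1 (mem_filter.1 hn).1).1
    have hSa' : ∀ n ∈ S', a' ≤ n := fun n hn => (mem_Icc.1 (mem_filter.1 hn).1).1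
    have haS : a ∈ S := mem_filter.2 ⟨mem_Icc.2 ⟨le_rfl, by omega⟩, ha2⟩
    have haS' : a ∉ S' := fun h3 => by
      have := hSa' a h3
      omega
    have hne : S ≠ S' := fun h3 => haS' (h3 ▸ haS)
    obtain ⟨n, hn, hb⟩ := h1 a ((le_max_left _ _).trans haa) S S' hSa
      (fun n hn => hlt.le.trans (hSa' n hn)) (hcut a N le_rfl (by omega) hN ha3)
      (hcut a' N' hlt.le (by omega) hN' ha3') hne
    have hna : n < a' := by
      by_contra hc2
      rw [not_lt] at hc2
      rcases hn with ⟨h3, h4⟩ | ⟨h3, h4⟩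
      · refine h4 (mem_filter.2 ⟨mem_Icc.2 ⟨hc2, ?_⟩, (mem_filter.1 h3).2⟩)
        exact (mem_Icc.1 (mem_filter.1 h3).1).2
      · refine h4 (mem_filter.2 ⟨mem_Icc.2 ⟨hlt.le.trans hc2, ?_⟩, (mem_filter.1 h3).2⟩)
        exact (mem_Icc.1 (mem_filter.1 h3).1).2
    have h5 : (n : ℝ) ≤ a' := by exact_mod_cast hna.le
    linarith

end Pool.Agent.H18.PM
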